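import Pool.Agent.H83.Ord.Main

set_option autoImplicit false

/-!
# The transfer of an invariant homomorphism
-/

namespace Pool.Agent.H27.Ord

open Pool.Agent.H83.Ord

lemma conj_mem {G : Type*} [Group G] (M : Subgroup G) [hM : M.Normal] (m : M) (g : G) :
    g⁻¹ * (m : G) * g ∈ M := by
  have := hM.conj_mem m m.2 g⁻¹
  simpa using this

/-- The transfer of a homomorphism at an element whose conjugates have the same value. -/
lemma transfer_eq_pow {G A : Type*} [Group G] [CommGroup A] (M : Subgroup G) [hM : M.Normal]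
    [hF : M.FiniteIndex] (φ : M →* A) (m : M)
    (h : ∀ g : G, φ ⟨g⁻¹ * (m : G) * g, conj_mem M m g⟩ = φ m) :
    φ.transfer (m : G) = φ m ^ M.index := by
  classical
  have T : M.LeftTransversal := default
  rw [MonoidHom.transfer_def φ T]
  unfold Subgroup.leftTransversals.diff
  have hq : ∀ q : G ⧸ M, (m : G)⁻¹ • q = q := by
    intro q
    induction q using QuotientGroup.induction_on with
    | H z =>
      show ((((m : G)⁻¹ * z : G)) : G ⧸ M) = (z : G ⧸ M)
      rw [QuotientGroup.eq]
      have := conj_mem M m z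
      simpa [mul_assoc] using this
  letI := M.fintypeQuotientOfFiniteIndex
  have key : ∀ q : G ⧸ M, φ ⟨((T.2.leftQuotientEquiv q : G))⁻¹ *
      (((m : G) • T).2.leftQuotientEquiv q : G), QuotientGroup.leftRel_apply.mp <|
          Quotient.exact' ((T.2.leftQuotientEquiv.symm_apply_apply q).trans
            (((m : G) • T).2.leftQuotientEquiv.symm_apply_apply q).symm)⟩ = φ m := by
    intro q
    rw [← h (T.2.leftQuotientEquiv q : G)]
    congr 1
    apply Subtype.ext
    show _ * _ = _
    rw [Subgroup.smul_apply_eq_smul_apply_inv_smul, hq, smul_eq_mul]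
    group
  rw [Finset.prod_congr rfl (fun q _ => key q), Finset.prod_const, Finset.card_univ]
  congr 1
  rw [← Nat.card_eq_fintype_card]
  rfl

/-- In a group without homomorphisms onto `ℤ` an invariant value of a homomorphism of a normal
subgroup of finite index to `ℤ` vanishes. -/
lemma NoZ.invariant {G : Type*} [Group G] (hG : NoZ G) (M : Subgroup G) [hM : M.Normal]
    [hF : M.FiniteIndex] (φ : M →* Multiplicative ℤ) (m : M)
    (h : ∀ g : G, φ ⟨g⁻¹ * (m : G) * g, conj_mem M m g⟩ = φ m) : φ m = 1 := by
  have h1 := transfer_eq_pow M φ m h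
  rw [hG.eq_one φ.transfer] at h1
  have h2 : Multiplicative.toAdd (φ m ^ M.index) = 0 := by rw [← h1]; rfl
  rw [toAdd_pow, smul_eq_zero] at h2
  rcases h2 with h2 | h2
  · exact absurd h2 hF.index_ne_zero
  · rw [← ofAdd_toAdd (φ m), h2]; rfl

end Pool.Agent.H27.Ord
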