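import Pool.Agent.H27.Ord.Cone

set_option autoImplicit false

/-!
# Finitely generated groups with a Conradian order map onto the integers
-/

namespace Pool.Agent.H27.Ord

open Pool.Agent.H83.Ord

section

variable {G : Type*} [Group G] {P : Set G}

lemma lt'_one {x : G} : lt' P 1 x ↔ x ∈ P := by
  unfold lt'
  rw [inv_one, one_mul]

lemma lt'_inv_one {x : G} : lt' P x⁻¹ 1 ↔ x ∈ P := by
  unfold lt'
  rw [inv_inv, mul_one]

lemma lt'_mul_right (x : G) {u : G} (hu : u ∈ P) : lt' P x (x * u) := by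
  unfold lt'
  rwa [inv_mul_cancel_left]

lemma lt'_pow_succ {m : G} (hm : m ∈ P) (k : ℕ) : lt' P (m ^ k) (m ^ (k + 1)) := by
  rw [pow_succ]
  exact lt'_mul_right _ hm

lemma lt'_pow_lt (hP : IsCone P) {m : G} (hm : m ∈ P) {k l : ℕ} (h : k < l) :
    lt' P (m ^ k) (m ^ l) := by
  induction l, h using Nat.le_induction with
  | base => exact lt'_pow_succ hm k
  | succ n _ ih => exact lt'_trans hP ih (lt'_pow_succ hm n)

lemma lt'_asymm (hP : IsCone P) {x y : G} (h : lt' P x y) (h' : lt' P y x) : False :=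
  lt'_irrefl hP x (lt'_trans hP h h')

lemma con_lt (hP : IsConrad P) {f g : G} (hf : f ∈ P) (hg : g ∈ P) : lt' P g (f * g ^ 2) := by
  unfold lt'
  have := hP.con f hf g hg
  rwa [← mul_assoc]

lemma mul_lt_cube (hP : IsConrad P) {f b : G} (hb : b ∈ P) (hf : lt' P f b) :
    lt' P (f * b) (b ^ 3) := by
  have h1 := con_lt hP hf hb
  have h2 := lt'_mul f h1
  have h3 : f * (f⁻¹ * b * b ^ 2) = b ^ 3 := by
    rw [mul_assoc f⁻¹, mul_inv_cancel_left, ← pow_succ']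
  rwa [h3] at h2

/-- The convex subgroup generated by a positive element. -/
def DD (hP : IsConrad P) (g : G) (hg : g ∈ P) : Subgroup G where
  carrier := {h | ∃ k : ℕ, lt' P h (g ^ k) ∧ lt' P h⁻¹ (g ^ k)}
  one_mem' := ⟨1, by rw [pow_one, lt'_one]; exact hg, by rw [pow_one, inv_one, lt'_one]; exact hg⟩
  mul_mem' := by
    rintro a b ⟨k, ha, ha'⟩ ⟨l, hb, hb'⟩
    have hk : lt' P (g ^ k) (g ^ (k + l + 1)) := lt'_pow_lt hP.toIsCone hg (by omega)
    have hl : lt' P (g ^ l) (g ^ (k + l + 1)) := lt'_pow_lt hP.toIsCone hg (by omega)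
    have hg' : g ^ (k + l + 1) ∈ P := pow_mem_cone hP.toIsCone hg _ (by omega)
    refine ⟨(k + l + 1) * 3, ?_, ?_⟩
    · rw [pow_mul]
      exact lt'_trans hP.toIsCone (lt'_mul a (lt'_trans hP.toIsCone hb hl))
        (mul_lt_cube hP hg' (lt'_trans hP.toIsCone ha hk))
    · rw [pow_mul, mul_inv_rev]
      exact lt'_trans hP.toIsCone (lt'_mul b⁻¹ (lt'_trans hP.toIsCone ha' hk))
        (mul_lt_cube hP hg' (lt'_trans hP.toIsCone hb' hl))
  inv_mem' := by
    rintro a ⟨k, ha, ha'⟩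
    exact ⟨k, ha', by rwa [inv_inv]⟩

lemma mem_DD (hP : IsConrad P) (g : G) (hg : g ∈ P) (h : G) :
    h ∈ DD hP g hg ↔ ∃ k : ℕ, lt' P h (g ^ k) ∧ lt' P h⁻¹ (g ^ k) := Iff.rfl

lemma mem_DD_of_lt (hP : IsConrad P) {g : G} (hg : g ∈ P) {h : G} (hh : h ∈ P) {k : ℕ}
    (h1 : lt' P h (g ^ k)) : h ∈ DD hP g hg := by
  refine ⟨k, h1, ?_⟩
  exact lt'_trans hP.toIsCone (lt'_inv_one.2 hh) (lt'_trans hP.toIsCone (lt'_one.2 hh) h1)

lemma self_mem_DD (hP : IsConrad P) {g : G} (hg : g ∈ P) : g ∈ DD hP g hg :=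
  mem_DD_of_lt hP hg hg (k := 2) (by
    have := lt'_pow_succ hg 1
    rwa [pow_one] at this)

/-- The elements all of whose powers are below `m`. -/
def CS (P : Set G) (m : G) : Set G := {c | ∀ k : ℕ, lt' P (c ^ k) m ∧ lt' P (c⁻¹ ^ k) m}

lemma inv_mem_CS {m c : G} (hc : c ∈ CS P m) : c⁻¹ ∈ CS P m := by
  intro k
  rw [inv_inv]
  exact ⟨(hc k).2, (hc k).1⟩

lemma DD_le_CS (hP : IsConrad P) {m d : G} (hd : d ∈ P) (hdC : d ∈ CS P m) {h : G}
    (hh : h ∈ DD hP d hd) : h ∈ CS P m := by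
  intro k
  constructor
  · obtain ⟨j, hj, -⟩ := pow_mem hh k
    exact lt'_trans hP.toIsCone hj (hdC j).1
  · obtain ⟨j, hj, -⟩ := pow_mem (inv_mem hh) k
    exact lt'_trans hP.toIsCone hj (hdC j).1

/-- The largest convex subgroup not containing `m`. -/
def CC (hP : IsConrad P) (m : G) (hm : m ∈ P) : Subgroup G where
  carrier := CS P m
  one_mem' := by
    intro k
    rw [inv_one, one_pow, lt'_one]
    exact ⟨hm, hm⟩
  inv_mem' := by
    intro c hc
    exact inv_mem_CS hc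
  mul_mem' := by
    intro a b ha hb
    -- it suffices to place both elements in a common `DD d`
    have key : ∀ a' ∈ P, a' ∈ CS P m → ∀ b' ∈ P, b' ∈ CS P m →
        ∃ (d : G) (hd : d ∈ P), d ∈ CS P m ∧ a' ∈ DD hP d hd ∧ b' ∈ DD hP d hd := by
      intro a' ha'P ha' b' hb'P hb'
      rcases lt'_tri hP.toIsCone a' b' with h | h | h
      · exact ⟨b', hb'P, hb', mem_DD_of_lt hP hb'P ha'P (k := 1) (by rwa [pow_one]),
          self_mem_DD hP hb'P⟩
      · subst h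
        exact ⟨a', ha'P, ha', self_mem_DD hP ha'P, self_mem_DD hP ha'P⟩
      · exact ⟨a', ha'P, ha', self_mem_DD hP ha'P,
          mem_DD_of_lt hP ha'P hb'P (k := 1) (by rwa [pow_one])⟩
    by_cases ha1 : a = 1
    · rw [ha1, one_mul]; exact hb
    by_cases hb1 : b = 1
    · rw [hb1, mul_one]; exact ha
    rcases hP.tot a ha1 with ha2 | ha2 <;> rcases hP.tot b hb1 with hb2 | hb2
    · obtain ⟨d, hd, hdC, h1, h2⟩ := key a ha2 ha b hb2 hb
      exact DD_le_CS hP hd hdC (mul_mem h1 h2)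
    · obtain ⟨d, hd, hdC, h1, h2⟩ := key a ha2 ha b⁻¹ hb2 (inv_mem_CS hb)
      exact DD_le_CS hP hd hdC (mul_mem h1 (by simpa using inv_mem h2))
    · obtain ⟨d, hd, hdC, h1, h2⟩ := key a⁻¹ ha2 (inv_mem_CS ha) b hb2 hb
      exact DD_le_CS hP hd hdC (mul_mem (by simpa using inv_mem h1) h2)
    · obtain ⟨d, hd, hdC, h1, h2⟩ := key a⁻¹ ha2 (inv_mem_CS ha) b⁻¹ hb2 (inv_mem_CS hb)
      exact DD_le_CS hP hd hdC (mul_mem (by simpa using inv_mem h1) (by simpa using inv_mem h2))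

lemma mem_CC (hP : IsConrad P) (m : G) (hm : m ∈ P) (c : G) :
    c ∈ CC hP m hm ↔ ∀ k : ℕ, lt' P (c ^ k) m ∧ lt' P (c⁻¹ ^ k) m := Iff.rfl

lemma CC_convex (hP : IsConrad P) {m : G} (hm : m ∈ P) {x c : G} (hx : x ∈ P)
    (hxc : lt' P x c) (hc : c ∈ CC hP m hm) : x ∈ CC hP m hm := by
  have hcP : c ∈ P := lt'_one.1 (lt'_trans hP.toIsCone (lt'_one.2 hx) hxc)
  exact DD_le_CS hP hcP hc (mem_DD_of_lt hP hcP hx (k := 1) (by rwa [pow_one]))

lemma not_mem_CC_self (hP : IsConrad P) {m : G} (hm : m ∈ P) : m ∉ CC hP m hm := by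
  intro h
  have := (h 1).1
  rw [pow_one] at this
  exact lt'_irrefl hP.toIsCone m this

/-- Elements outside `CC` are cofinal. -/
lemma cofinal_of_not_mem (hP : IsConrad P) {m : G} (hm : m ∈ P)
    (hcof : ∀ h, ∃ K : ℕ, lt' P h (m ^ K)) {g : G} (hg : g ∈ P) (hgC : g ∉ CC hP m hm) (h : G) :
    ∃ k : ℕ, lt' P h (g ^ k) := by
  rw [mem_CC] at hgC
  push Not at hgC
  obtain ⟨k, hk⟩ := hgC
  have hinv : lt' P (g⁻¹ ^ k) m := by
    rcases Nat.eq_zero_or_pos k with h0 | h0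
    · rw [h0, pow_zero, lt'_one]; exact hm
    · rw [inv_pow]
      exact lt'_trans hP.toIsCone (lt'_inv_one.2 (pow_mem_cone hP.toIsCone hg k h0))
        (lt'_one.2 hm)
  have hk' : ¬ lt' P (g ^ k) m := fun h => hk h hinv
  have h1 : lt' P m (g ^ (k + 1)) := by
    rcases lt'_tri hP.toIsCone m (g ^ k) with h | h | h
    · exact lt'_trans hP.toIsCone h (lt'_pow_succ hg k)
    · rw [h]; exact lt'_pow_succ hg k
    · exact absurd h hk'
  have h2 : m ∈ DD hP g hg := mem_DD_of_lt hP hg hm h1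
  obtain ⟨K, hK⟩ := hcof h
  obtain ⟨j, hj, -⟩ := pow_mem h2 K
  exact ⟨j, lt'_trans hP.toIsCone hK hj⟩

lemma lt'_of_CC (hP : IsConrad P) {m : G} (hm : m ∈ P) {g : G} (hg : g ∈ P)
    (hgC : g ∉ CC hP m hm) {u v : G} (hu : u ∈ CC hP m hm) (hv : v ∈ CC hP m hm) :
    lt' P u (v * g) := by
  have h1 : lt' P (v⁻¹ * u) g := by
    have huv : v⁻¹ * u ∈ CC hP m hm := mul_mem (inv_mem hv) hu
    rcases lt'_tri hP.toIsCone (v⁻¹ * u) g with h | h | h
    · exact h
    · rw [h] at huv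
      exact absurd huv hgC
    · exact absurd (CC_convex hP hm hg h huv) hgC
  have h2 := lt'_mul v h1
  rwa [mul_inv_cancel_left] at h2

lemma conj_mem_aux1 (hP : IsConrad P) {m : G} (hm : m ∈ P)
    (hcof : ∀ h, ∃ K : ℕ, lt' P h (m ^ K)) {g : G} (hg : g ∈ P) (hgC : g ∉ CC hP m hm)
    {c : G} (hc : c ∈ CC hP m hm) (hx : g⁻¹ * c * g ∈ P) : g⁻¹ * c * g ∈ CC hP m hm := by
  by_contra hxC
  obtain ⟨k, hk⟩ := cofinal_of_not_mem hP hm hcof hx hxC g
  have hpow : ∀ n : ℕ, (g⁻¹ * c * g) ^ n = g⁻¹ * c ^ n * g := by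
    intro n
    induction n with
    | zero => simp
    | succ n ih => rw [pow_succ, ih, pow_succ]; group
  rw [hpow] at hk
  have hd : c ^ k ∈ CC hP m hm := pow_mem hc k
  generalize c ^ k = d at hk hd
  have hC := hP.toIsCone
  have F1 : lt' P (g * g) (d * g) := by
    have := lt'_mul g hk
    have h2 : g * (g⁻¹ * d * g) = d * g := by group
    rwa [h2] at this
  have F2 : lt' P g (g * g) := lt'_mul_right g hg
  have F3 : lt' P g (d * g) := lt'_trans hC F2 F1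
  have F4 : lt' P (d * g) (d * (d * g)) := lt'_mul d F3
  have F5 : lt' P (d * (d * g)) (d * (d * (d * g))) := lt'_mul d F4
  have hu : (d⁻¹ * d⁻¹ * d⁻¹) * g ∈ P := by
    rw [← lt'_one]
    exact lt'_of_CC hP hm hg hgC (one_mem _)
      (mul_mem (mul_mem (inv_mem hd) (inv_mem hd)) (inv_mem hd))
  -- the elements
  have A1 : lt' P (d⁻¹ * d⁻¹ * g) (d⁻¹ * g * d⁻¹ * (d⁻¹ * d⁻¹ * g)) := by
    have h1 : lt' P g (d * g * ((d⁻¹ * d⁻¹ * d⁻¹) * g)) := lt'_trans hC F3 (lt'_mul_right _ hu)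
    have h2 := lt'_mul (d⁻¹ * d⁻¹) h1
    have h3 : d⁻¹ * d⁻¹ * (d * g * ((d⁻¹ * d⁻¹ * d⁻¹) * g)) =
        d⁻¹ * g * d⁻¹ * (d⁻¹ * d⁻¹ * g) := by group
    rwa [h3] at h2
  have B1 : lt' P (d⁻¹ * d⁻¹ * g) (g * d⁻¹ * (d⁻¹ * d⁻¹ * g)) := by
    have h1 : lt' P g (d * (d * g) * ((d⁻¹ * d⁻¹ * d⁻¹) * g)) :=
      lt'_trans hC (lt'_trans hC F3 F4) (lt'_mul_right _ hu)
    have h2 := lt'_mul (d⁻¹ * d⁻¹) h1
    have h3 : d⁻¹ * d⁻¹ * (d * (d * g) * ((d⁻¹ * d⁻¹ * d⁻¹) * g)) =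
        g * d⁻¹ * (d⁻¹ * d⁻¹ * g) := by group
    rwa [h3] at h2
  have B2 : lt' P g (g * d⁻¹ * (d⁻¹ * d⁻¹ * g)) := by
    have h1 := lt'_mul_right g hu
    have h3 : g * ((d⁻¹ * d⁻¹ * d⁻¹) * g) = g * d⁻¹ * (d⁻¹ * d⁻¹ * g) := by group
    rwa [h3] at h1
  have H1 : lt' P (d⁻¹ * d⁻¹ * g) (d * g) := by
    have h1 : lt' P g (d * (d * (d * g))) := lt'_trans hC (lt'_trans hC F3 F4) F5
    have h2 := lt'_mul (d⁻¹ * d⁻¹) h1
    have h3 : d⁻¹ * d⁻¹ * (d * (d * (d * g))) = d * g := by group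
    rwa [h3] at h2
  have step : ∀ y : G, lt' P y (d * g) → lt' P (g * d⁻¹ * y) (d * g) := by
    intro y hy
    have h1 := lt'_mul (g * d⁻¹) hy
    have h3 : g * d⁻¹ * (d * g) = g * g := by group
    rw [h3] at h1
    exact lt'_trans hC h1 F1
  have H2 : lt' P (g * d⁻¹ * (d⁻¹ * d⁻¹ * g)) (d * g) := step _ H1
  have H3 : lt' P (g * d⁻¹ * (g * d⁻¹ * (d⁻¹ * d⁻¹ * g))) (d * g) := step _ H2
  have H4 : lt' P (d⁻¹ * g * d⁻¹ * (g * d⁻¹ * (g * d⁻¹ * (d⁻¹ * d⁻¹ * g)))) g := by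
    have h1 := lt'_mul (d⁻¹ * g * d⁻¹) H3
    have h2 : lt' P (d⁻¹ * g * d⁻¹ * (d * g)) g := by
      have h3 := lt'_mul d⁻¹ F1
      have h4 : d⁻¹ * (g * g) = d⁻¹ * g * d⁻¹ * (d * g) := by group
      have h5 : d⁻¹ * (d * g) = g := by group
      rwa [h4, h5] at h3
    exact lt'_trans hC h1 h2
  have H5 : lt' P (d⁻¹ * g * d⁻¹ * (g * d⁻¹ * (g * d⁻¹ * (d⁻¹ * d⁻¹ * g))))
      (g * d⁻¹ * (d⁻¹ * d⁻¹ * g)) := lt'_trans hC H4 B2
  have H6 := hP.con _ A1 _ B1
  have H7 := hP.mul _ H5 _ H6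
  apply hP.one
  have h8 : (d⁻¹ * g * d⁻¹ * (g * d⁻¹ * (g * d⁻¹ * (d⁻¹ * d⁻¹ * g))))⁻¹ *
      (g * d⁻¹ * (d⁻¹ * d⁻¹ * g)) *
      (((d⁻¹ * d⁻¹ * g)⁻¹ * (g * d⁻¹ * (d⁻¹ * d⁻¹ * g)))⁻¹ *
        ((d⁻¹ * d⁻¹ * g)⁻¹ * (d⁻¹ * g * d⁻¹ * (d⁻¹ * d⁻¹ * g))) *
        ((d⁻¹ * d⁻¹ * g)⁻¹ * (g * d⁻¹ * (d⁻¹ * d⁻¹ * g))) ^ 2) = 1 := by
    rw [pow_two]
    group
  rwa [h8] at H7

lemma conj_mem_aux2 (hP : IsConrad P) {m : G} (hm : m ∈ P)
    (hcof : ∀ h, ∃ K : ℕ, lt' P h (m ^ K)) {g : G} (hg : g ∈ P) (hgC : g ∉ CC hP m hm)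
    {c : G} (hc : c ∈ CC hP m hm) (hx : g * c * g⁻¹ ∈ P) : g * c * g⁻¹ ∈ CC hP m hm := by
  by_contra hxC
  obtain ⟨k, hk⟩ := cofinal_of_not_mem hP hm hcof hx hxC g
  have hpow : ∀ n : ℕ, (g * c * g⁻¹) ^ n = g * c ^ n * g⁻¹ := by
    intro n
    induction n with
    | zero => simp
    | succ n ih => rw [pow_succ, ih, pow_succ]; group
  rw [hpow] at hk
  have hd : c ^ k ∈ CC hP m hm := pow_mem hc k
  generalize c ^ k = d at hk hd
  have ht : d * g⁻¹ ∈ P := by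
    unfold lt' at hk
    have h3 : g⁻¹ * (g * d * g⁻¹) = d * g⁻¹ := by group
    rwa [h3] at hk
  have h1 : lt' P (d * g⁻¹) d := by
    have := lt'_mul_right (d * g⁻¹) hg
    have h3 : d * g⁻¹ * g = d := by group
    rwa [h3] at this
  have h2 := CC_convex hP hm ht h1 hd
  apply hgC
  have h3 : g = (d * g⁻¹)⁻¹ * d := by group
  rw [h3]
  exact mul_mem (inv_mem h2) hd

lemma conj_mem_aux3 (hP : IsConrad P) {m : G} (hm : m ∈ P)
    (hcof : ∀ h, ∃ K : ℕ, lt' P h (m ^ K)) {g : G} (hg : g ∈ P) (hgC : g ∉ CC hP m hm)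
    {c : G} (hc : c ∈ CC hP m hm) : g⁻¹ * c * g ∈ CC hP m hm ∧ g * c * g⁻¹ ∈ CC hP m hm := by
  constructor
  · by_cases h1 : g⁻¹ * c * g = 1
    · rw [h1]; exact one_mem _
    rcases hP.tot _ h1 with h2 | h2
    · exact conj_mem_aux1 hP hm hcof hg hgC hc h2
    · have h3 : (g⁻¹ * c * g)⁻¹ = g⁻¹ * c⁻¹ * g := by group
      rw [h3] at h2
      have h4 := conj_mem_aux1 hP hm hcof hg hgC (inv_mem hc) h2
      rw [← h3] at h4
      exact (inv_mem_iff).1 h4
  · by_cases h1 : g * c * g⁻¹ = 1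
    · rw [h1]; exact one_mem _
    rcases hP.tot _ h1 with h2 | h2
    · exact conj_mem_aux2 hP hm hcof hg hgC hc h2
    · have h3 : (g * c * g⁻¹)⁻¹ = g * c⁻¹ * g⁻¹ := by group
      rw [h3] at h2
      have h4 := conj_mem_aux2 hP hm hcof hg hgC (inv_mem hc) h2
      rw [← h3] at h4
      exact (inv_mem_iff).1 h4

lemma CC_normal (hP : IsConrad P) {m : G} (hm : m ∈ P)
    (hcof : ∀ h, ∃ K : ℕ, lt' P h (m ^ K)) : (CC hP m hm).Normal := by
  refine ⟨fun c hc g => ?_⟩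
  by_cases hgC : g ∈ CC hP m hm
  · exact mul_mem (mul_mem hgC hc) (inv_mem hgC)
  have hg1 : g ≠ 1 := fun h => hgC (h ▸ one_mem _)
  rcases hP.tot g hg1 with hg | hg
  · exact (conj_mem_aux3 hP hm hcof hg hgC hc).2
  · have hgC' : g⁻¹ ∉ CC hP m hm := fun h => hgC ((inv_mem_iff).1 h)
    have := (conj_mem_aux3 hP hm hcof hg hgC' hc).1
    rwa [inv_inv] at this

/-! ### Archimedean orders -/

/-- Groups with a one-sided order all of whose positive elements are cofinal are commutative. -/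
lemma arch_conj (hP : IsCone P) (harch : ∀ x ∈ P, ∀ h, ∃ k : ℕ, lt' P h (x ^ k)) (x : G)
    (hx : x ∈ P) (g : G) : g⁻¹ * x * g ∈ P := by
  have key : ∀ x ∈ P, ∀ g ∈ P, g⁻¹ * x * g ∈ P := by
    intro x hx g hg
    have hne : g⁻¹ * x * g ≠ 1 := by
      intro h
      have h3 : x = g * (g⁻¹ * x * g) * g⁻¹ := by group
      rw [h] at h3
      have h4 : x = 1 := by rw [h3]; group
      exact hP.one (h4 ▸ hx)
    rcases hP.tot _ hne with h | h
    · exact h
    exfalso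
    obtain ⟨k, hk⟩ := harch x hx g
    rcases Nat.eq_zero_or_pos k with h0 | h0
    · rw [h0, pow_zero] at hk
      exact lt'_asymm hP hk (lt'_one.2 hg)
    have h1 := pow_mem_cone hP h k h0
    have hpow : ∀ n : ℕ, ((g⁻¹ * x * g)⁻¹) ^ n = (x ^ n * g)⁻¹ * g := by
      intro n
      induction n with
      | zero => simp
      | succ n ih => rw [pow_succ', ih, pow_succ]; group
    rw [hpow] at h1
    have h2 : lt' P (x ^ k) g := lt'_trans hP (lt'_mul_right _ hg) h1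
    exact lt'_asymm hP hk h2
  by_cases hg1 : g = 1
  · rw [hg1]; simpa using hx
  rcases hP.tot g hg1 with hg | hg
  · exact key x hx g hg
  · have hne : g⁻¹ * x * g ≠ 1 := by
      intro h
      have h3 : x = g * (g⁻¹ * x * g) * g⁻¹ := by group
      rw [h] at h3
      have h4 : x = 1 := by rw [h3]; group
      exact hP.one (h4 ▸ hx)
    rcases hP.tot _ hne with h | h
    · exact h
    · have h1 := key _ h _ hg
      have h3 : g⁻¹⁻¹ * (g⁻¹ * x * g)⁻¹ * g⁻¹ = x⁻¹ := by group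
      rw [h3] at h1
      have h4 := hP.mul _ hx _ h1
      rw [mul_inv_cancel] at h4
      exact absurd h4 hP.one

lemma arch_exists (hP : IsCone P) (harch : ∀ x ∈ P, ∀ h, ∃ k : ℕ, lt' P h (x ^ k)) {w a : G}
    (hw : w ∈ P) (ha : a ∈ P) : ∃ i : ℕ, ¬ lt' P a (w ^ i) ∧ lt' P a (w ^ (i + 1)) := by
  classical
  have hex := harch w hw a
  have h1 := Nat.find_spec hex
  have h2 : Nat.find hex ≠ 0 := by
    intro h
    rw [h, pow_zero] at h1
    exact lt'_asymm hP h1 (lt'_one.2 ha)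
  obtain ⟨i, hi⟩ := Nat.exists_eq_succ_of_ne_zero h2
  refine ⟨i, Nat.find_min hex (by omega), ?_⟩
  rw [hi] at h1
  exact h1

lemma arch_comm (hP : IsCone P) (harch : ∀ x ∈ P, ∀ h, ∃ k : ℕ, lt' P h (x ^ k)) (a b : G) :
    a * b = b * a := by
  classical
  have hconj := arch_conj hP harch
  have hright : ∀ {x y : G} (z : G), lt' P x y → lt' P (x * z) (y * z) := by
    intro x y z h
    unfold lt' at *
    have h1 := hconj _ h z
    have h2 : z⁻¹ * (x⁻¹ * y) * z = (x * z)⁻¹ * (y * z) := by group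
    rwa [h2] at h1
  -- reduction to positive elements
  suffices hpos : ∀ a ∈ P, ∀ b ∈ P, Commute a b by
    by_cases ha : a = 1
    · rw [ha, one_mul, mul_one]
    by_cases hb : b = 1
    · rw [hb, one_mul, mul_one]
    rcases hP.tot a ha with ha' | ha' <;> rcases hP.tot b hb with hb' | hb'
    · exact hpos a ha' b hb'
    · exact (Commute.inv_right_iff).1 (hpos a ha' _ hb')
    · exact (Commute.inv_left_iff).1 (hpos _ ha' b hb')
    · exact (Commute.inv_inv_iff).1 (hpos _ ha' _ hb')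
  by_cases hleast : ∃ e ∈ P, ∀ x ∈ P, ¬ lt' P x e
  · obtain ⟨e, he, hmin⟩ := hleast
    have hcyc : ∀ g ∈ P, ∃ i : ℕ, g = e ^ i := by
      intro g hg
      obtain ⟨i, hi1, hi2⟩ := arch_exists hP harch he hg
      rcases lt'_tri hP g (e ^ i) with h | h | h
      · exact absurd h hi1
      · exact ⟨i, h⟩
      · exfalso
        refine hmin _ h ?_
        have h1 := lt'_mul ((e ^ i)⁻¹) hi2
        rw [pow_succ, inv_mul_cancel_left] at h1
        exact h1
    intro a ha b hb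
    obtain ⟨i, rfl⟩ := hcyc a ha
    obtain ⟨j, rfl⟩ := hcyc b hb
    exact (Commute.refl e).pow_pow i j
  · push Not at hleast
    -- square roots from below
    have hsq : ∀ x ∈ P, ∃ w ∈ P, ¬ lt' P x (w * w) := by
      intro x hx
      obtain ⟨y, hy, hyx⟩ := hleast x hx
      have hz : y⁻¹ * x ∈ P := hyx
      rcases lt'_tri hP y (y⁻¹ * x) with h | h | h
      · refine ⟨y, hy, fun h1 => ?_⟩
        have h2 := lt'_mul y h
        rw [mul_inv_cancel_left] at h2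
        exact lt'_asymm hP h1 h2
      · refine ⟨y, hy, fun h1 => ?_⟩
        have h2 : y * y = x := by
          nth_rw 2 [h]
          rw [mul_inv_cancel_left]
        rw [h2] at h1
        exact lt'_irrefl hP x h1
      · refine ⟨y⁻¹ * x, hz, fun h1 => ?_⟩
        have h2 := hright (y⁻¹ * x) h
        rw [mul_inv_cancel_left] at h2
        exact lt'_asymm hP h1 h2
    have main : ∀ a ∈ P, ∀ b ∈ P, (b * a)⁻¹ * (a * b) ∉ P := by
      intro a ha b hb hx
      obtain ⟨w, hw, hwx⟩ := hsq _ hx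
      obtain ⟨i, hi1, hi2⟩ := arch_exists hP harch hw ha
      obtain ⟨j, hj1, hj2⟩ := arch_exists hP harch hw hb
      -- upper bound of `a * b`
      have h1 : lt' P (a * b) (w ^ (i + 1) * w ^ (j + 1)) :=
        lt'_trans hP (lt'_mul a hj2) (hright _ hi2)
      -- `a * b = b * a * x ≥ b * a * w ^ 2`
      have h2 : ¬ lt' P (a * b) (b * a * (w * w)) := by
        intro h
        apply hwx
        have h3 := lt'_mul (b * a)⁻¹ h
        rw [inv_mul_cancel_left] at h3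
        exact h3
      have h3 : lt' P (b * a * (w * w)) (w ^ (i + 1) * w ^ (j + 1)) := by
        rcases lt'_tri hP (a * b) (b * a * (w * w)) with h | h | h
        · exact absurd h h2
        · rwa [← h]
        · exact lt'_trans hP h h1
      have h4 : w ^ (i + 1) * w ^ (j + 1) = w ^ j * w ^ i * (w * w) := by
        rw [← pow_add, ← pow_add, ← pow_two, ← pow_add]
        congr 1
        omega
      rw [h4] at h3
      have h5 : lt' P (b * a) (w ^ j * w ^ i) := by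
        have := hright (w * w)⁻¹ h3
        rwa [mul_inv_cancel_right, mul_inv_cancel_right] at this
      -- `w ^ j * w ^ i ≤ b * a`
      have h6 : lt' P (w ^ j * w ^ i) (b * w ^ i) ∨ w ^ j * w ^ i = b * w ^ i := by
        rcases lt'_tri hP b (w ^ j) with h | h | h
        · exact absurd h hj1
        · right; rw [h]
        · left; exact hright _ h
      have h7 : lt' P (b * w ^ i) (b * a) ∨ b * w ^ i = b * a := by
        rcases lt'_tri hP a (w ^ i) with h | h | h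
        · exact absurd h hi1
        · right; rw [h]
        · left; exact lt'_mul b h
      rcases h6 with h6 | h6 <;> rcases h7 with h7 | h7
      · exact lt'_asymm hP h5 (lt'_trans hP h6 h7)
      · rw [h7] at h6; exact lt'_asymm hP h5 h6
      · rw [← h6] at h7; exact lt'_asymm hP h5 h7
      · rw [h6, h7] at h5; exact lt'_irrefl hP _ h5
    intro a ha b hb
    by_contra hne
    have h1 : (b * a)⁻¹ * (a * b) ≠ 1 := by
      intro h
      exact hne (inv_mul_eq_one.1 h).symm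
    rcases hP.tot _ h1 with h | h
    · exact main a ha b hb h
    · apply main b hb a ha
      have h3 : ((b * a)⁻¹ * (a * b))⁻¹ = (a * b)⁻¹ * (b * a) := by group
      rwa [h3] at h

/-! ### The theorem -/

lemma exists_gt2 (hP : IsCone P) {m : G} (hm : m ∈ P) (x : G) :
    ∃ m' ∈ P, lt' P x m' ∧ lt' P m m' := by
  have hmm : lt' P m (m * m) := lt'_mul_right m hm
  rcases lt'_tri hP x m with h | h | h
  · exact ⟨m * m, hP.mul _ hm _ hm, lt'_trans hP h hmm, hmm⟩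
  · exact ⟨m * m, hP.mul _ hm _ hm, h ▸ hmm, hmm⟩
  · have hx : x ∈ P := lt'_one.1 (lt'_trans hP (lt'_one.2 hm) h)
    have hxx : lt' P x (x * x) := lt'_mul_right x hx
    exact ⟨x * x, hP.mul _ hx _ hx, hxx, lt'_trans hP h hxx⟩

lemma exists_bound (hP : IsCone P) {m₀ : G} (hm₀ : m₀ ∈ P) (S : Finset G) :
    ∃ m ∈ P, ∀ s ∈ S, lt' P s m ∧ lt' P s⁻¹ m := by
  classical
  induction S using Finset.induction_on with
  | empty => exact ⟨m₀, hm₀, fun s hs => absurd hs (Finset.notMem_empty s)⟩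
  | insert a S _ ih =>
    obtain ⟨m, hm, h⟩ := ih
    obtain ⟨m1, hm1, h1, h1'⟩ := exists_gt2 hP hm a
    obtain ⟨m2, hm2, h2, h2'⟩ := exists_gt2 hP hm1 a⁻¹
    refine ⟨m2, hm2, fun s hs => ?_⟩
    rcases Finset.mem_insert.1 hs with hs | hs
    · rw [hs]
      exact ⟨lt'_trans hP h1 h2', h2⟩
    · exact ⟨lt'_trans hP (h s hs).1 (lt'_trans hP h1' h2'),
        lt'_trans hP (h s hs).2 (lt'_trans hP h1' h2')⟩

lemma tame_of_lt (hP : IsConrad P) {m s : G} (hm : m ∈ P) (hs : lt' P s m) (k : ℕ) :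
    ∃ K : ℕ, lt' P (s * m ^ k) (m ^ K) := by
  have hC := hP.toIsCone
  induction k with
  | zero => exact ⟨1, by simpa using hs⟩
  | succ k ih =>
    obtain ⟨K, hK⟩ := ih
    have hK' : lt' P (s * m ^ k) (m ^ (K + 1)) := lt'_trans hC hK (lt'_pow_succ hm K)
    have hb : m ^ (K + 1) ∈ P := pow_mem_cone hC hm _ (by omega)
    have h1 := mul_lt_cube hP hb hK'
    refine ⟨(K + 1) * 3, ?_⟩
    rw [pow_mul]
    rcases Nat.eq_zero_or_pos K with h0 | h0
    · rw [h0] at h1 ⊢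
      have h2 : s * m ^ (k + 1) = s * m ^ k * m ^ (0 + 1) := by
        rw [mul_assoc, ← pow_add]
      rw [h2]; exact h1
    · refine lt'_trans hC ?_ h1
      rw [mul_assoc, ← pow_add]
      exact lt'_mul s (lt'_pow_lt hC hm (by omega))

/-- Finitely generated non-trivial groups with a Conradian cone map onto the integers. -/
theorem not_noZ_of_conrad (hfg : Group.FG G) (hne : ∃ g : G, g ≠ 1) (hP : IsConrad P) :
    ¬ NoZ G := by
  classical
  intro hN
  have hC := hP.toIsCone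
  obtain ⟨g₀, hg₀⟩ := hne
  obtain ⟨m₀, hm₀⟩ : ∃ m₀, m₀ ∈ P := by
    rcases hP.tot g₀ hg₀ with h | h
    · exact ⟨_, h⟩
    · exact ⟨_, h⟩
  obtain ⟨S, hS⟩ := hfg.out
  obtain ⟨m, hm, hSm⟩ := exists_bound hC hm₀ S
  have htame : ∀ h : G, (∀ k : ℕ, ∃ K : ℕ, lt' P (h * m ^ k) (m ^ K)) ∧
      (∀ k : ℕ, ∃ K : ℕ, lt' P (h⁻¹ * m ^ k) (m ^ K)) := by
    intro h
    have hmem : h ∈ Subgroup.closure (S : Set G) := by rw [hS]; trivial
    induction hmem using Subgroup.closure_induction with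
    | mem s hs => exact ⟨tame_of_lt hP hm (hSm s hs).1, tame_of_lt hP hm (hSm s hs).2⟩
    | one =>
      constructor
      · intro k; exact ⟨k + 1, by rw [one_mul]; exact lt'_pow_succ hm k⟩
      · intro k; exact ⟨k + 1, by rw [inv_one, one_mul]; exact lt'_pow_succ hm k⟩
    | mul a b _ _ ha hb =>
      constructor
      · intro k
        obtain ⟨K1, h1⟩ := hb.1 k
        obtain ⟨K2, h2⟩ := ha.1 K1
        exact ⟨K2, by rw [mul_assoc]; exact lt'_trans hC (lt'_mul a h1) h2⟩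
      · intro k
        obtain ⟨K1, h1⟩ := ha.2 k
        obtain ⟨K2, h2⟩ := hb.2 K1
        exact ⟨K2, by rw [mul_inv_rev, mul_assoc]; exact lt'_trans hC (lt'_mul b⁻¹ h1) h2⟩
    | inv a _ ha => exact ⟨ha.2, by rw [inv_inv]; exact ha.1⟩
  have hcof : ∀ h, ∃ K : ℕ, lt' P h (m ^ K) := by
    intro h
    obtain ⟨K, hK⟩ := (htame h).1 0
    exact ⟨K, by simpa using hK⟩
  have hnormal := CC_normal hP hm hcof
  let C := CC hP m hm
  let PQ : Set (G ⧸ C) := {q | ∃ g ∈ P, g ∉ C ∧ (QuotientGroup.mk g : G ⧸ C) = q}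
  have hPQ : IsCone PQ := by
    refine ⟨?_, ?_, ?_⟩
    · rintro _ ⟨a, ha, haC, rfl⟩ _ ⟨b, hb, hbC, rfl⟩
      refine ⟨a * b, hP.mul _ ha _ hb, fun h => ?_, rfl⟩
      exact haC (CC_convex hP hm ha (lt'_mul_right a hb) h)
    · rintro ⟨g, _, hgC, hg⟩
      exact hgC ((QuotientGroup.eq_one_iff g).1 hg)
    · intro q hq
      induction q using QuotientGroup.induction_on with
      | H g =>
        have hgC : g ∉ C := fun h => hq ((QuotientGroup.eq_one_iff g).2 h)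
        have hg1 : g ≠ 1 := fun h => hgC (h ▸ one_mem _)
        rcases hP.tot g hg1 with h | h
        · exact Or.inl ⟨g, h, hgC, rfl⟩
        · exact Or.inr ⟨g⁻¹, h, fun h' => hgC ((inv_mem_iff).1 h'), rfl⟩
  have harch : ∀ x ∈ PQ, ∀ h, ∃ k : ℕ, lt' PQ h (x ^ k) := by
    rintro _ ⟨g, hg, hgC, rfl⟩ h
    induction h using QuotientGroup.induction_on with
    | H h =>
      obtain ⟨k, hk⟩ := cofinal_of_not_mem hP hm hcof hg hgC h
      -- enlarge the exponent to leave the coset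
      refine ⟨k + 1, (h⁻¹ * g ^ (k + 1)), ?_, ?_, rfl⟩
      · exact lt'_trans hC hk (lt'_pow_succ hg k)
      · intro hmem
        -- `1 < h⁻¹ g^k < h⁻¹ g^(k+1)`, so `h⁻¹ g^k ∈ C` and `g ∈ C`
        have h1 : h⁻¹ * g ^ k ∈ C := by
          refine CC_convex hP hm hk ?_ hmem
          exact lt'_mul h⁻¹ (lt'_pow_succ hg k)
        apply hgC
        have h2 : g = (h⁻¹ * g ^ k)⁻¹ * (h⁻¹ * g ^ (k + 1)) := by
          rw [pow_succ]; group
        rw [h2]
        exact mul_mem (inv_mem h1) hmem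
  letI : CommGroup (G ⧸ C) :=
    { (inferInstance : Group (G ⧸ C)) with mul_comm := arch_comm hPQ harch }
  have htf : ∀ (b : G ⧸ C) (n : ℕ), 1 ≤ n → b ^ n = 1 → b = 1 := by
    intro b n hn hb
    by_contra hb1
    rcases hPQ.tot b hb1 with h | h
    · have h1 := pow_mem_cone hPQ h n hn
      exact hPQ.one (hb ▸ h1)
    · have h1 := pow_mem_cone hPQ h n hn
      have h2 : b⁻¹ ^ n = 1 := by rw [inv_pow, hb, inv_one]
      exact hPQ.one (h2 ▸ h1)
  have h1 := NoZ.hom_eq_one hfg hN htf (QuotientGroup.mk' C) m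
  exact not_mem_CC_self hP hm ((QuotientGroup.eq_one_iff m).1 h1)

/-- Finitely generated non-trivial solvable right-orderable groups map onto the integers. -/
theorem not_noZ_of_rightOrderable {G : Type} [Group G] (hfg : Group.FG G)
    (hs : Group.IsSolvable G) (hne : ∃ g : G, g ≠ 1) (hRO : RightOrderable G) : ¬ NoZ G := by
  obtain ⟨P, hP⟩ := exists_conrad hs (exists_cone hRO)
  exact not_noZ_of_conrad hfg hne hP

end

end Pool.Agent.H27.Ord
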