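import Pool.Agent.H27.Ord.Second

set_option autoImplicit false

/-!
# The subgroup of a finite power
-/

namespace Pool.Agent.H27.Ord

open Pool.Agent.H83.Ord

section

variable {X : Type} [Group X] {p : ℕ} (χ a : X →* Multiplicative (ZMod p))

/-- The pair of homomorphisms, additively. -/
def qq (g : X) : ZMod p × ZMod p := (Multiplicative.toAdd (χ g), Multiplicative.toAdd (a g))

lemma qq_mul (g h : X) : qq χ a (g * h) = qq χ a g + qq χ a h := by
  unfold qq
  rw [map_mul χ, map_mul a, toAdd_mul, toAdd_mul]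
  rfl

lemma qq_one : qq χ a 1 = 0 := by
  unfold qq
  rw [map_one χ, map_one a, toAdd_one]
  rfl

lemma qq_inv (g : X) : qq χ a g⁻¹ = - qq χ a g := by
  unfold qq
  rw [map_inv χ, map_inv a, toAdd_inv, toAdd_inv]
  rfl

/-- The index set: linear surjections onto the plane. -/
abbrev Idx2 (p k : ℕ) : Type :=
  {L : (Fin k → ZMod p) →ₗ[ZMod p] (ZMod p × ZMod p) // Function.Surjective L}

/-- The subgroup of the power. -/
def HH (k : ℕ) : Subgroup (Idx2 p k → X) where
  carrier := {x | ∃ u, ∀ L : Idx2 p k, qq χ a (x L) = L.1 u}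
  one_mem' := ⟨0, fun L => by rw [Pi.one_apply, qq_one, map_zero]⟩
  mul_mem' := by
    rintro x y ⟨u, hu⟩ ⟨v, hv⟩
    exact ⟨u + v, fun L => by rw [Pi.mul_apply, qq_mul, hu, hv, map_add]⟩
  inv_mem' := by
    rintro x ⟨u, hu⟩
    exact ⟨-u, fun L => by rw [Pi.inv_apply, qq_inv, hu, map_neg]⟩

lemma mem_HH (k : ℕ) (x : Idx2 p k → X) :
    x ∈ HH χ a k ↔ ∃ u, ∀ L : Idx2 p k, qq χ a (x L) = L.1 u := Iff.rfl

lemma finite_idx2 (k : ℕ) [Fact p.Prime] : Finite (Idx2 p k) := by
  have : Finite ((Fin k → ZMod p) →ₗ[ZMod p] (ZMod p × ZMod p)) :=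
    Finite.of_injective (fun f => (f : (Fin k → ZMod p) → (ZMod p × ZMod p))) DFunLike.coe_injective
  infer_instance

/-- The kernel of the pair of homomorphisms. -/
def MM : Subgroup X := χ.ker ⊓ a.ker

lemma mem_MM (g : X) : g ∈ MM χ a ↔ qq χ a g = 0 := by
  unfold MM qq
  rw [Subgroup.mem_inf, MonoidHom.mem_ker, MonoidHom.mem_ker]
  constructor
  · rintro ⟨h1, h2⟩
    rw [h1, h2]; rfl
  · intro h
    have h1 : Multiplicative.toAdd (χ g) = 0 := congrArg Prod.fst h
    have h2 : Multiplicative.toAdd (a g) = 0 := congrArg Prod.snd h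
    exact ⟨h1, h2⟩

instance : (MM χ a).Normal := by unfold MM; infer_instance

lemma MM_fi [Fact p.Prime] : (MM χ a).FiniteIndex := by
  unfold MM
  have h1 : χ.ker.FiniteIndex := Subgroup.finiteIndex_ker χ
  have h2 : a.ker.FiniteIndex := Subgroup.finiteIndex_ker a
  infer_instance

lemma pow_mem_MM (g : X) : g ^ p ∈ MM χ a := by
  rw [mem_MM]
  unfold qq
  rw [map_pow χ, map_pow a, toAdd_pow, toAdd_pow, nsmul_eq_mul, nsmul_eq_mul, ZMod.natCast_self,
    zero_mul, zero_mul]
  rfl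

lemma HH_fi (k : ℕ) [Fact p.Prime] : (HH χ a k).FiniteIndex := by
  have := finite_idx2 (p := p) k
  let f : (Idx2 p k → X) →* (Idx2 p k → Multiplicative (ZMod p) × Multiplicative (ZMod p)) :=
    MonoidHom.pi fun L => (χ.prod a).comp (Pi.evalMonoidHom _ L)
  have h1 : f.ker.FiniteIndex := Subgroup.finiteIndex_ker f
  refine Subgroup.finiteIndex_of_le (H := f.ker) ?_
  intro x hx
  rw [MonoidHom.mem_ker] at hx
  refine ⟨0, fun L => ?_⟩
  have h2 : (χ (x L), a (x L)) = (1, 1) := congrFun hx L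
  rw [map_zero]
  unfold qq
  rw [(Prod.mk.inj h2).1, (Prod.mk.inj h2).2]
  rfl

variable {χ a}

lemma qq_surj [Fact p.Prime] (hχ : Function.Surjective χ) (y : X) (hy : χ y = 1) (hay : a y ≠ 1)
    (t : ZMod p × ZMod p) : ∃ g, qq χ a g = t := by
  obtain ⟨x, hx⟩ := hχ (Multiplicative.ofAdd t.1)
  have h0 : Multiplicative.toAdd (a y) ≠ 0 := hay
  let c : ZMod p := (t.2 - Multiplicative.toAdd (a x)) / Multiplicative.toAdd (a y)
  refine ⟨x * y ^ c.val, ?_⟩
  unfold qq
  rw [map_mul χ, map_mul a, map_pow χ, map_pow a, hy, hx, one_pow, mul_one, toAdd_mul, toAdd_pow,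
    nsmul_eq_mul, ZMod.natCast_zmod_val]
  have h1 : c * Multiplicative.toAdd (a y) = t.2 - Multiplicative.toAdd (a x) :=
    div_mul_cancel₀ _ h0
  rw [h1, toAdd_ofAdd, add_sub_cancel]

lemma exists_idx2 (r : ℕ) [Fact p.Prime] : Nonempty (Idx2 p (r + 2)) := by
  refine ⟨⟨(LinearMap.proj 0).prod (LinearMap.proj 1), ?_⟩⟩
  rintro ⟨s, t⟩
  refine ⟨fun i => if i = 0 then s else t, ?_⟩
  have h1 : (1 : Fin (r + 2)) ≠ 0 := by
    intro h
    have := congrArg Fin.val h
    simp at this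
  simp [h1]

/-- The group has no homomorphisms onto the integers. -/
lemma HH_noZ (hC : Core2 X p χ) (y : X) (hy : χ y = 1) (hay : a y ≠ 1) (k : ℕ) :
    NoZ (HH χ a k) := by
  classical
  have : Fact p.Prime := ⟨hC.prime⟩
  have hfin := finite_idx2 (p := p) k
  have hfi := MM_fi χ a
  intro h hh
  -- the embedding of the product of the kernels
  let j : (Idx2 p k → MM χ a) →* HH χ a k :=
    { toFun := fun m => ⟨fun L => (m L : X), ⟨0, fun L => by
        rw [map_zero]; exact (mem_MM χ a _).1 (m L).2⟩⟩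
      map_one' := rfl
      map_mul' := fun _ _ => rfl }
  have hsingle : h.comp j = 1 := by
    apply MonoidHom.pi_ext
    intro L m
    let φ : MM χ a →* Multiplicative ℤ := (h.comp j).comp (MonoidHom.mulSingle (fun _ : Idx2 p k => MM χ a) L)
    have h1 : φ m = 1 := by
      apply NoZ.invariant hC.noz (MM χ a) φ m
      intro g
      -- an element of the big group with coordinate g at L
      obtain ⟨u, hu⟩ := L.2 (qq χ a g)
      choose s hs using fun L' : Idx2 p k => qq_surj hC.surj y hy hay (L'.1 u)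
      let x : HH χ a k := ⟨Function.update s L g, ⟨u, fun L' => by
        by_cases hL : L' = L
        · subst hL
          rw [Function.update_self, hu]
        · rw [Function.update_of_ne hL, hs]⟩⟩
      have h2 : j (Pi.mulSingle L ⟨g⁻¹ * (m : X) * g, conj_mem (MM χ a) m g⟩) =
          x⁻¹ * j (Pi.mulSingle L m) * x := by
        apply Subtype.ext
        funext L'
        show ((Pi.mulSingle L (⟨g⁻¹ * (m : X) * g, conj_mem (MM χ a) m g⟩ : MM χ a) : _ → MM χ a) L' : X)
          = (Function.update s L g L')⁻¹ * ((Pi.mulSingle L m : _ → MM χ a) L' : X) *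
            (Function.update s L g L')
        by_cases hL : L' = L
        · subst hL
          rw [Pi.mulSingle_eq_same, Pi.mulSingle_eq_same, Function.update_self]
        · rw [Pi.mulSingle_eq_of_ne hL, Pi.mulSingle_eq_of_ne hL]
          simp
      show h (j (Pi.mulSingle L _)) = h (j (Pi.mulSingle L m))
      rw [h2, map_mul, map_mul, map_inv, mul_comm, mul_inv_cancel_left]
    exact h1
  obtain ⟨x, hx⟩ := hh (Multiplicative.ofAdd 1)
  have h1 : h (x ^ p) = 1 := by
    have h2 : x ^ p = j (fun L => ⟨(x.1 L) ^ p, pow_mem_MM χ a _⟩) := by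
      apply Subtype.ext
      funext L
      rfl
    rw [h2]
    exact DFunLike.congr_fun hsingle _
  rw [map_pow, hx] at h1
  have h3 : (p : ℤ) = 0 := by
    have := congrArg Multiplicative.toAdd h1
    rw [toAdd_pow, toAdd_ofAdd, nsmul_eq_mul, mul_one] at this
    exact this
  exact hC.prime.ne_zero (by exact_mod_cast h3)

lemma HH_fg (hC : Core2 X p χ) (k : ℕ) : Group.FG (HH χ a k) := by
  have : Fact p.Prime := ⟨hC.prime⟩
  have hfin := finite_idx2 (p := p) k
  have hfi := HH_fi χ a k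
  have := hC.fg
  infer_instance

lemma Core2.exists_ne_one (hC : Core2 X p χ) : ∃ g : X, g ≠ 1 := by
  have : Fact p.Prime := ⟨hC.prime⟩
  obtain ⟨x, hx⟩ := hC.surj (Multiplicative.ofAdd 1)
  refine ⟨x, ?_⟩
  rintro rfl
  rw [map_one] at hx
  have h3 : (0 : ZMod p) = 1 := congrArg Multiplicative.toAdd hx
  exact zero_ne_one h3

lemma HH_ne (hC : Core2 X p χ) (r : ℕ) : ∃ x : HH χ a (r + 2), x ≠ 1 := by
  classical
  have : Fact p.Prime := ⟨hC.prime⟩
  obtain ⟨L⟩ := exists_idx2 (p := p) r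
  obtain ⟨g, hg⟩ := hC.exists_ne_one
  refine ⟨⟨Pi.mulSingle L (g ^ p), ⟨0, fun L' => ?_⟩⟩, ?_⟩
  · rw [map_zero]
    by_cases hL : L' = L
    · subst hL
      rw [Pi.mulSingle_eq_same]
      exact (mem_MM χ a _).1 (pow_mem_MM χ a g)
    · rw [Pi.mulSingle_eq_of_ne hL]
      exact qq_one χ a
  · intro h
    have h1 := congrFun (congrArg Subtype.val h) L
    have h2 : (Pi.mulSingle L (g ^ p) : Idx2 p (r + 2) → X) L = 1 := h1
    rw [Pi.mulSingle_eq_same] at h2
    exact hg (hC.tf g p hC.prime.one_le h2)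

/-- Groups whose coordinates are controlled by a proper subspace are locally indicable. -/
lemma HH_small (hC : Core2 X p χ) {k : ℕ} (U₀ : Submodule (ZMod p) (Fin k → ZMod p)) (hU : U₀ ≠ ⊤)
    (W : Type) [Group W] (ψ : W →* (Idx2 p k → X)) (hψ : Function.Injective ψ)
    (hW : ∀ w : W, ∃ u ∈ U₀, ∀ L : Idx2 p k, qq χ a (ψ w L) = L.1 u) : LocallyIndicable W := by
  classical
  have : Fact p.Prime := ⟨hC.prime⟩
  intro Z hZ hZ1
  by_contra hcon
  have hN : NoZ Z := fun f hf => hcon ⟨f, hf⟩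
  -- coordinates inside the kernel vanish
  have hK : ∀ L : Idx2 p k, (∀ z ∈ Z, χ (ψ z L) = 1) → ∀ z ∈ Z, ψ z L = 1 := by
    intro L hL z₀ hz₀
    by_contra hne
    let φ : W →* X := (Pi.evalMonoidHom (fun _ : Idx2 p k => X) L).comp ψ
    have hfg : Group.FG (Z.map φ) := by
      have h1 : Group.FG Z := (Group.fg_iff_subgroup_fg Z).2 hZ
      exact Group.fg_of_surjective (f := φ.subgroupMap Z) (φ.subgroupMap_surjective Z)
    have hNZ : NoZ (Z.map φ) :=
      noZ_of_surjective (φ.subgroupMap Z) (φ.subgroupMap_surjective Z) hN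
    have hle : Z.map φ ≤ χ.ker := by
      rintro _ ⟨z, hz, rfl⟩
      exact hL z hz
    refine LI.not_noZ (LI.of_injective (Subgroup.inclusion hle)
      (Subgroup.inclusion_injective hle) hC.ker) hfg ?_ hNZ
    refine ⟨⟨φ z₀, ⟨z₀, hz₀, rfl⟩⟩, ?_⟩
    intro h
    exact hne (congrArg Subtype.val h)
  -- a nontrivial coordinate
  obtain ⟨L₀, z, hz, hzL⟩ : ∃ L : Idx2 p k, ∃ z ∈ Z, χ (ψ z L) ≠ 1 := by
    by_contra hcon2
    push Not at hcon2
    apply hZ1
    rw [Subgroup.eq_bot_iff_forall]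
    intro z hz
    apply hψ
    rw [map_one]
    funext L
    exact hK L (fun z' hz' => hcon2 L z' hz') z hz
  obtain ⟨u, huU, hu⟩ := hW z
  have hu0 : u ≠ 0 := by
    intro h
    have h1 := hu L₀
    rw [h, map_zero] at h1
    exact hzL (congrArg Prod.fst h1)
  obtain ⟨c, hc0, hcU⟩ := Submodule.exists_le_ker_of_lt_top U₀ (lt_top_iff_ne_top.2 hU)
  obtain ⟨v, hv⟩ : ∃ v, c v ≠ 0 := by
    by_contra h
    push Not at h
    exact hc0 (LinearMap.ext h)
  obtain ⟨i, hi⟩ : ∃ i, u i ≠ 0 := by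
    by_contra h
    push Not at h
    exact hu0 (funext h)
  let b : (Fin k → ZMod p) →ₗ[ZMod p] ZMod p := LinearMap.proj i
  have hbu : b u ≠ 0 := hi
  have hcu : c u = 0 := hcU huU
  let L₁ : Idx2 p k := ⟨c.prod b, by
    rintro ⟨s, t⟩
    refine ⟨(s / c v) • v + ((t - (s / c v) * b v) / b u) • u, ?_⟩
    show (c _, b _) = (s, t)
    rw [map_add c, map_add b, map_smul c, map_smul b, map_smul c, map_smul b,
      hcu, smul_eq_mul, smul_eq_mul, smul_eq_mul, smul_eq_mul, mul_zero, add_zero,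
      div_mul_cancel₀ _ hv, div_mul_cancel₀ _ hbu, add_sub_cancel]⟩
  have h1 : ∀ z' ∈ Z, χ (ψ z' L₁) = 1 := by
    intro z' _
    obtain ⟨u', hu'U, hu'⟩ := hW z'
    have h2 : Multiplicative.toAdd (χ (ψ z' L₁)) = c u' := congrArg Prod.fst (hu' L₁)
    have h3 : c u' = 0 := hcU hu'U
    rw [h3] at h2
    exact h2
  have h2 := hK L₁ h1 z hz
  have h3 : Multiplicative.toAdd (a (ψ z L₁)) = b u := congrArg Prod.snd (hu L₁)
  rw [h2, map_one, toAdd_one] at h3
  exact hbu h3.symm

end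

end Pool.Agent.H27.Ord
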