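import Pool.Agent.H27.Ord.Mean
import Pool.Agent.H83.Ord.Main

set_option autoImplicit false

/-!
# Right-orderable solvable groups have Conradian orders
-/

namespace Pool.Agent.H27.Ord

open Pool.Agent.H83.Ord

/-- Positive cones of one-sided orders. -/
structure IsCone {G : Type*} [Group G] (P : Set G) : Prop where
  mul : ∀ a ∈ P, ∀ b ∈ P, a * b ∈ P
  one : (1 : G) ∉ P
  tot : ∀ a, a ≠ 1 → a ∈ P ∨ a⁻¹ ∈ P

/-- Conradian cones. -/
structure IsConrad {G : Type*} [Group G] (P : Set G) : Prop extends IsCone P where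
  con : ∀ f ∈ P, ∀ g ∈ P, g⁻¹ * f * g ^ 2 ∈ P

/-- The positive cone of a right-order. -/
lemma exists_cone {G : Type} [Group G] (h : RightOrderable G) : ∃ P : Set G, IsCone P := by
  obtain ⟨o, ho⟩ := h
  have hlt : ∀ x y z : G, o.lt x y → o.lt (x * z) (y * z) := by
    intro x y z hxy
    have h1 : o.le x y := @le_of_lt G o.toPreorder x y hxy
    have h2 := ho x y z h1
    refine @lt_of_le_of_ne G o.toPartialOrder _ _ h2 ?_
    intro h3
    have h4 : x = y := mul_right_cancel h3
    exact @ne_of_lt G o.toPreorder x y hxy h4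
  refine ⟨{g | o.lt 1 g}, ⟨?_, ?_, ?_⟩⟩
  · intro a ha b hb
    have h1 : o.lt (1 * b) (a * b) := hlt 1 a b ha
    rw [one_mul] at h1
    exact @lt_trans G o.toPreorder _ _ _ hb h1
  · exact @lt_irrefl G o.toPreorder 1
  · intro a ha
    rcases @lt_trichotomy G o 1 a with h1 | h1 | h1
    · exact Or.inl h1
    · exact absurd h1.symm ha
    · right
      have h2 := hlt a 1 a⁻¹ h1
      rw [mul_inv_cancel, one_mul] at h2
      exact h2

section

variable {G : Type*} [Group G]

/-- The space of cones. -/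
def Cone (G : Type*) [Group G] : Type _ := {P : Set G // IsCone P}

instance : MulAction G (Cone G) where
  smul g P := ⟨{x | g⁻¹ * x * g ∈ P.1}, by
    refine ⟨fun a ha b hb => ?_, ?_, fun a ha => ?_⟩
    · have h1 := P.2.mul _ ha _ hb
      have h2 : g⁻¹ * (a * b) * g = g⁻¹ * a * g * (g⁻¹ * b * g) := by group
      show g⁻¹ * (a * b) * g ∈ P.1
      rw [h2]; exact h1
    · intro h
      apply P.2.one
      have h2 : g⁻¹ * 1 * g = 1 := by group
      rw [← h2]; exact h
    · have h1 : g⁻¹ * a * g ≠ 1 := by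
        intro h
        apply ha
        have h3 : a = g * (g⁻¹ * a * g) * g⁻¹ := by group
        rw [h3, h]; group
      rcases P.2.tot _ h1 with h | h
      · exact Or.inl h
      · right
        show g⁻¹ * a⁻¹ * g ∈ P.1
        have h2 : g⁻¹ * a⁻¹ * g = (g⁻¹ * a * g)⁻¹ := by group
        rw [h2]; exact h⟩
  one_smul P := by
    apply Subtype.ext
    ext x
    show (1 : G)⁻¹ * x * 1 ∈ P.1 ↔ x ∈ P.1
    simp
  mul_smul g h P := by
    apply Subtype.ext
    ext x
    show (g * h)⁻¹ * x * (g * h) ∈ P.1 ↔ h⁻¹ * (g⁻¹ * x * g) * h ∈ P.1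
    have : (g * h)⁻¹ * x * (g * h) = h⁻¹ * (g⁻¹ * x * g) * h := by group
    rw [this]

lemma mem_smul (g : G) (P : Cone G) (x : G) : x ∈ (g • P).1 ↔ g⁻¹ * x * g ∈ P.1 := Iff.rfl

/-- The left order of a cone. -/
def lt' (P : Set G) (x y : G) : Prop := x⁻¹ * y ∈ P

lemma lt'_trans {P : Set G} (hP : IsCone P) {x y z : G} (h1 : lt' P x y) (h2 : lt' P y z) :
    lt' P x z := by
  unfold lt' at *
  have := hP.mul _ h1 _ h2
  have h3 : x⁻¹ * y * (y⁻¹ * z) = x⁻¹ * z := by group
  rwa [h3] at this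

lemma lt'_irrefl {P : Set G} (hP : IsCone P) (x : G) : ¬ lt' P x x := by
  unfold lt'
  rw [inv_mul_cancel]
  exact hP.one

lemma lt'_mul {P : Set G} {x y : G} (z : G) (h : lt' P x y) : lt' P (z * x) (z * y) := by
  unfold lt' at *
  have h3 : (z * x)⁻¹ * (z * y) = x⁻¹ * y := by group
  rwa [h3]

lemma lt'_mul_iff {P : Set G} {x y : G} (z : G) : lt' P (z * x) (z * y) ↔ lt' P x y := by
  unfold lt'
  have h3 : (z * x)⁻¹ * (z * y) = x⁻¹ * y := by group
  rw [h3]

lemma lt'_tri {P : Set G} (hP : IsCone P) (x y : G) : lt' P x y ∨ x = y ∨ lt' P y x := by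
  by_cases h : x⁻¹ * y = 1
  · right; left
    exact (inv_mul_eq_one.1 h)
  · rcases hP.tot _ h with h1 | h1
    · exact Or.inl h1
    · right; right
      unfold lt'
      have h3 : (x⁻¹ * y)⁻¹ = y⁻¹ * x := by group
      rwa [h3] at h1

lemma pow_mem_cone {P : Set G} (hP : IsCone P) {x : G} (hx : x ∈ P) : ∀ n : ℕ, 1 ≤ n → x ^ n ∈ P := by
  intro n hn
  induction n, hn using Nat.le_induction with
  | base => rwa [pow_one]
  | succ n _ ih => rw [pow_succ]; exact hP.mul _ ih _ hx

/-- The bad cones for a pair of elements. -/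
def Bad (f g : G) : Set (Cone G) := {P | f ∈ P.1 ∧ g ∈ P.1 ∧ (g⁻¹ * f * g ^ 2)⁻¹ ∈ P.1}

lemma bad_wandering (f g : G) (P : Cone G) (hP : P ∈ Bad f g) (n : ℕ) (hn : 1 ≤ n) :
    (g * f) ^ n • P ∉ Bad f g := by
  obtain ⟨hf, hg, hbad⟩ := hP
  have hc := P.2
  have h1 : lt' P.1 (f * g ^ 2) g := by
    unfold lt'
    have h3 : (g⁻¹ * f * g ^ 2)⁻¹ = (f * g ^ 2)⁻¹ * g := by group
    rwa [h3] at hbad
  have hb : g * f ∈ P.1 := hc.mul _ hg _ hf
  have h2 : ∀ m : ℕ, lt' P.1 ((g * f) ^ m) (g ^ 2) := by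
    intro m
    induction m with
    | zero =>
      unfold lt'
      rw [pow_zero, inv_one, one_mul]
      exact pow_mem_cone hc hg 2 (by norm_num)
    | succ m ih =>
      have h3 : lt' P.1 (f * (g * f) ^ m) g := lt'_trans hc (lt'_mul f ih) h1
      have h4 := lt'_mul g h3
      rw [pow_succ', show g * f * (g * f) ^ m = g * (f * (g * f) ^ m) from mul_assoc _ _ _, pow_two]
      exact h4
  have h3 : lt' P.1 (f * (g * f) ^ n) (g * f) := by
    refine lt'_trans hc (lt'_trans hc (lt'_mul f (h2 n)) h1) ?_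
    unfold lt'
    rw [inv_mul_cancel_left]
    exact hf
  rintro ⟨hf', -, -⟩
  rw [mem_smul] at hf'
  have h4 : lt' P.1 ((g * f) ^ n) (f * (g * f) ^ n) := by
    unfold lt'
    rwa [← mul_assoc]
  have h5 : lt' P.1 ((g * f) ^ n) (g * f) := lt'_trans hc h4 h3
  unfold lt' at h5
  obtain ⟨k, rfl⟩ : ∃ k, n = k + 1 := ⟨n - 1, by omega⟩
  have h6 : ((g * f) ^ (k + 1))⁻¹ * (g * f) = ((g * f) ^ k)⁻¹ := by
    rw [pow_succ', mul_inv_rev, mul_assoc, inv_mul_cancel, mul_one]
  rw [h6] at h5
  rcases Nat.eq_zero_or_pos k with hk | hk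
  · rw [hk, pow_zero, inv_one] at h5
    exact hc.one h5
  · have h7 := pow_mem_cone hc hb k hk
    have h8 := hc.mul _ h5 _ h7
    rw [inv_mul_cancel] at h8
    exact hc.one h8

lemma wander {Ω : Type*} {m : Set Ω → ℝ} (hm : IsMean m) (A : ℕ → Set Ω) (c : ℝ)
    (hA : ∀ i, m (A i) = c) (hd : ∀ i j, i < j → Disjoint (A i) (A j)) : c = 0 := by
  have h0 : 0 ≤ c := by rw [← hA 0]; exact hm.nonneg _
  have hempty : m ∅ = 0 := by
    have := hm.add ∅ ∅ (Set.disjoint_empty _)
    rw [Set.union_empty] at this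
    linarith
  have hsum : ∀ N : ℕ, m (⋃ i ∈ Finset.range N, A i) = N * c := by
    intro N
    induction N with
    | zero => simp [hempty]
    | succ N ih =>
      have h1 : (⋃ i ∈ Finset.range (N + 1), A i) = (⋃ i ∈ Finset.range N, A i) ∪ A N := by
        ext ω
        simp only [Set.mem_iUnion, Finset.mem_range, Set.mem_union]
        constructor
        · rintro ⟨i, hi, hω⟩
          rcases Nat.lt_succ_iff_lt_or_eq.1 hi with h | h
          · exact Or.inl ⟨i, h, hω⟩
          · exact Or.inr (h ▸ hω)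
        · rintro (⟨i, hi, hω⟩ | hω)
          · exact ⟨i, Nat.lt_succ_of_lt hi, hω⟩
          · exact ⟨N, Nat.lt_succ_self N, hω⟩
      rw [h1, hm.add, ih, hA]
      · push_cast; ring
      · rw [Set.disjoint_iUnion₂_left]
        intro i hi
        exact hd i N (Finset.mem_range.1 hi)
  by_contra hc
  have hpos : 0 < c := lt_of_le_of_ne h0 (Ne.symm hc)
  obtain ⟨N, hN⟩ := exists_nat_gt (1 / c)
  have h1 := hm.le_one (⋃ i ∈ Finset.range N, A i)
  rw [hsum] at h1
  rw [div_lt_iff₀ hpos] at hN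
  linarith

/-- The bad set is null for every invariant measure. -/
lemma bad_null {m : Set (Cone G) → ℝ} (hm : IsMean m) (hinv : ∀ g : G, TT g m = m) (f g : G) :
    m (Bad f g) = 0 := by
  refine wander hm (fun i => (fun P : Cone G => (g * f) ^ i • P) ⁻¹' Bad f g) _ (fun i => ?_) ?_
  · have := congrFun (hinv ((g * f) ^ i)) (Bad f g)
    rw [TT_apply] at this
    exact this
  · intro i j hij
    rw [Set.disjoint_left]
    intro P hi hj
    have h1 : (g * f) ^ i • P ∈ Bad f g := hi
    have h2 : (g * f) ^ j • P ∈ Bad f g := hj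
    have h3 : (g * f) ^ j • P = (g * f) ^ (j - i) • ((g * f) ^ i • P) := by
      rw [← mul_smul, ← pow_add, Nat.sub_add_cancel hij.le]
    rw [h3] at h2
    exact bad_wandering f g _ h1 (j - i) (by omega) h2

/-- Solvable right-orderable groups have Conradian cones. -/
theorem exists_conrad (hs : Group.IsSolvable G) (hne : ∃ P : Set G, IsCone P) :
    ∃ P : Set G, IsConrad P := by
  classical
  obtain ⟨P₀, hP₀⟩ := hne
  obtain ⟨m, hm, hinv⟩ := exists_invariant_mean (G := G) (Ω := Cone G) hs ⟨⟨P₀, hP₀⟩⟩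
  have hcompl : ∀ A : Set (Cone G), m Aᶜ = 1 - m A := by
    intro A
    have := hm.add A Aᶜ disjoint_compl_right
    rw [Set.union_compl_self, hm.univ] at this
    linarith
  have hempty : m ∅ = 0 := by
    have := hcompl Set.univ
    rw [Set.compl_univ, hm.univ] at this
    linarith
  let F : Filter (Cone G) :=
    { sets := {A | m A = 1}
      univ_sets := hm.univ
      sets_of_superset := by
        intro A B hA hAB
        have h1 := hm.mono hAB
        have h2 := hm.le_one B
        have h3 : m A = 1 := hA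
        show m B = 1
        linarith
      inter_sets := by
        intro A B hA hB
        have h1 : m A = 1 := hA
        have h2 : m B = 1 := hB
        show m (A ∩ B) = 1
        have h3 : m (A ∩ B) + m (A \ B) = m A := by
          rw [← hm.add _ _ (Set.disjoint_of_subset_left Set.inter_subset_right
            Set.disjoint_sdiff_right), Set.inter_union_sdiff]
        have h4 : m (A \ B) ≤ m Bᶜ := hm.mono (fun x hx => hx.2)
        rw [hcompl, h2] at h4
        have h5 := hm.nonneg (A \ B)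
        linarith }
  have hFne : F.NeBot := by
    rw [Filter.neBot_iff]
    intro h
    have h1 : (∅ : Set (Cone G)) ∈ F := by rw [h]; trivial
    have h2 : m ∅ = 1 := h1
    rw [hempty] at h2
    exact zero_ne_one h2
  let U : Ultrafilter (Cone G) := Ultrafilter.of F
  have hUF : (U : Filter (Cone G)) ≤ F := Ultrafilter.of_le F
  refine ⟨{x | {P : Cone G | x ∈ P.1} ∈ U}, ⟨⟨?_, ?_, ?_⟩, ?_⟩⟩
  · intro a ha b hb
    filter_upwards [ha, hb] with P h1 h2
    exact P.2.mul _ h1 _ h2
  · intro h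
    have h1 : {P : Cone G | (1 : G) ∈ P.1} = ∅ := by
      ext P
      simp only [Set.mem_ofPred_eq, Set.mem_empty_iff_false, iff_false]
      exact P.2.one
    have h2 : {P : Cone G | (1 : G) ∈ P.1} ∈ U := h
    rw [h1] at h2
    exact U.empty_notMem h2
  · intro a ha
    have h1 : {P : Cone G | a ∈ P.1} ∪ {P : Cone G | a⁻¹ ∈ P.1} ∈ U := by
      have h2 : {P : Cone G | a ∈ P.1} ∪ {P : Cone G | a⁻¹ ∈ P.1} = Set.univ := by
        ext P
        simp only [Set.mem_union, Set.mem_ofPred_eq, Set.mem_univ, iff_true]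
        exact P.2.tot a ha
      rw [h2]; exact Filter.univ_mem
    exact Ultrafilter.union_mem_iff.1 h1
  · intro f hf g hg
    by_contra hcon
    have h1 : {P : Cone G | g⁻¹ * f * g ^ 2 ∈ P.1} ∉ U := hcon
    have h2 : {P : Cone G | g⁻¹ * f * g ^ 2 ∈ P.1}ᶜ ∈ U := Ultrafilter.compl_mem_iff_notMem.2 h1
    have h3 : Bad f g ∈ U := by
      filter_upwards [hf, hg, h2] with P hf' hg' h2'
      refine ⟨hf', hg', ?_⟩
      have hne : g⁻¹ * f * g ^ 2 ≠ 1 := by
        intro h
        have h4 : f * g = 1 := by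
          have h5 : f * g = g * (g⁻¹ * f * g ^ 2) * g⁻¹ := by rw [pow_two]; group
          rw [h5, h]; group
        have h6 := P.2.mul _ hf' _ hg'
        rw [h4] at h6
        exact P.2.one h6
      exact (P.2.tot _ hne).resolve_left h2'
    have h4 : (Bad f g)ᶜ ∈ F := by
      show m (Bad f g)ᶜ = 1
      rw [hcompl, bad_null hm hinv, sub_zero]
    have h5 : (Bad f g)ᶜ ∈ U := hUF h4
    exact Ultrafilter.compl_mem_iff_notMem.1 h5 h3

end

end Pool.Agent.H27.Ord
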