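import Pool.Agent.H27.Ord.Transfer

set_option autoImplicit false

/-!
# Minimal finitely generated subgroups without homomorphisms onto the integers
-/

namespace Pool.Agent.H27.Ord

open Pool.Agent.H83.Ord

/-- A non-trivial finite commutative group maps onto a group of prime order. -/
lemma exists_surj_zmod (Q : Type*) [CommGroup Q] [Finite Q] [Nontrivial Q] :
    ∃ (p : ℕ) (f : Q →* Multiplicative (ZMod p)), p.Prime ∧ Function.Surjective f := by
  obtain ⟨M, hM, -⟩ := (eq_top_or_exists_le_coatom (⊥ : Subgroup Q)).resolve_left bot_ne_top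
  have hnt : Nontrivial (Q ⧸ M) := by
    rw [QuotientGroup.nontrivial_iff]
    exact hM.1
  have hs : IsSimpleGroup (Q ⧸ M) := by
    refine ⟨fun N _ => ?_⟩
    have hle : M ≤ N.comap (QuotientGroup.mk' M) := by
      intro x hx
      rw [Subgroup.mem_comap, QuotientGroup.mk'_apply, (QuotientGroup.eq_one_iff x).2 hx]
      exact one_mem N
    have hmap : (N.comap (QuotientGroup.mk' M)).map (QuotientGroup.mk' M) = N :=
      Subgroup.map_comap_eq_self_of_surjective (QuotientGroup.mk'_surjective M) N
    rcases hle.eq_or_lt with h | h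
    · left
      rw [← hmap, ← h, eq_bot_iff]
      rintro _ ⟨x, hx, rfl⟩
      exact (QuotientGroup.eq_one_iff x).2 hx
    · right
      rw [← hmap, hM.2 _ h]
      exact Subgroup.map_top_of_surjective _ (QuotientGroup.mk'_surjective M)
  obtain ⟨p, hp, ⟨e⟩⟩ := exists_prime_addEquiv_ZMod (G := Q ⧸ M)
  refine ⟨p, (AddMonoidHom.toMultiplicativeRight e.toAddMonoidHom).comp (QuotientGroup.mk' M), hp,
    ?_⟩
  intro z
  obtain ⟨y, hy⟩ := e.surjective (Multiplicative.toAdd z)
  obtain ⟨x, hx⟩ := QuotientGroup.mk'_surjective M (Additive.toMul y)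
  refine ⟨x, ?_⟩
  rw [MonoidHom.comp_apply, hx]
  exact hy

lemma LI.of_injective {G H : Type} [Group G] [Group H] (f : H →* G)
    (hf : Function.Injective f) (h : LocallyIndicable G) : LocallyIndicable H := by
  intro Z hZ hZ1
  have e : Z ≃* Z.map f := Z.equivMapOfInjective f hf
  have hfg : (Z.map f).FG := by
    have h1 : Group.FG Z := (Group.fg_iff_subgroup_fg Z).2 hZ
    exact (Group.fg_iff_subgroup_fg _).1
      (Group.fg_of_surjective (f := e.toMonoidHom) e.surjective)
  have hne : Z.map f ≠ ⊥ := by
    intro h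
    exact hZ1 ((Subgroup.map_eq_bot_iff_of_injective Z hf).1 h)
  obtain ⟨g, hg⟩ := h _ hfg hne
  exact ⟨g.comp e.toMonoidHom, hg.comp e.surjective⟩

/-- A finitely generated non-trivial group without homomorphisms onto `ℤ` is not locally
indicable. -/
lemma LI.not_noZ {G : Type} [Group G] (h : LocallyIndicable G) (hfg : Group.FG G)
    (hne : ∃ g : G, g ≠ 1) : ¬ NoZ G := by
  intro hN
  have h1 : (⊤ : Subgroup G).FG := Group.fg_iff.1 hfg |> fun h => by
    exact (Group.FG.out : (⊤ : Subgroup G).FG)
  have h2 : (⊤ : Subgroup G) ≠ ⊥ := by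
    intro h
    obtain ⟨g, hg⟩ := hne
    apply hg
    have : g ∈ (⊤ : Subgroup G) := trivial
    rw [h] at this
    exact this
  obtain ⟨f, hf⟩ := h ⊤ h1 h2
  refine hN (f.comp Subgroup.topEquiv.symm.toMonoidHom) ?_
  exact hf.comp Subgroup.topEquiv.symm.surjective

/-- The data: a finitely generated group without homomorphisms onto the integers, with a locally
indicable normal subgroup of prime index. -/
structure Core2 (X : Type) [Group X] (p : ℕ) (χ : X →* Multiplicative (ZMod p)) : Prop where
  prime : p.Prime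
  surj : Function.Surjective χ
  fg : Group.FG X
  noz : NoZ X
  tf : TorsionFree X
  ker : LocallyIndicable χ.ker

lemma exists_core2_aux (G : Type) [Group G] (htf : TorsionFree G)
    (hD : LocallyIndicable (commutator G)) (hG : ¬ LocallyIndicable G) :
    ∃ (X : Subgroup G) (p : ℕ) (χ : X →* Multiplicative (ZMod p)), Core2 X p χ := by
  classical
  let D := commutator G
  have hfin : ∀ X : Subgroup G, X.FG → NoZ X → Finite (X.map (QuotientGroup.mk' D)) := by
    intro X hX hN
    have h0 : Group.FG X := (Group.fg_iff_subgroup_fg X).2 hX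
    have h1 : Group.FG (X.map (QuotientGroup.mk' D)) :=
      Group.fg_of_surjective (f := (QuotientGroup.mk' D).subgroupMap X)
        ((QuotientGroup.mk' D).subgroupMap_surjective X)
    have h2 : NoZ (X.map (QuotientGroup.mk' D)) :=
      noZ_of_surjective ((QuotientGroup.mk' D).subgroupMap X)
        ((QuotientGroup.mk' D).subgroupMap_surjective X) hN
    let _ : CommGroup (G ⧸ D) := inferInstanceAs (CommGroup (Abelianization G))
    exact NoZ.finite_of_comm (B := X.map (QuotientGroup.mk' D)) h1 h2
  let S : Set ℕ := {n | ∃ X : Subgroup G, X.FG ∧ X ≠ ⊥ ∧ NoZ X ∧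
    Nat.card (X.map (QuotientGroup.mk' D)) = n}
  have hS : S.Nonempty := by
    unfold LocallyIndicable at hG
    push Not at hG
    obtain ⟨H, hH, hH1, hH2⟩ := hG
    exact ⟨_, H, hH, hH1, fun f hf => hH2 f hf, rfl⟩
  obtain ⟨X, hX, hX1, hXN, hXc⟩ := Nat.sInf_mem hS
  have hXfin := hfin X hX hXN
  have hXfg : Group.FG X := (Group.fg_iff_subgroup_fg X).2 hX
  have hXne : ∃ g : X, g ≠ 1 := by
    by_contra hcon
    push Not at hcon
    apply hX1
    rw [Subgroup.eq_bot_iff_forall]
    intro x hx
    exact congrArg Subtype.val (hcon ⟨x, hx⟩)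
  let Q := X.map (QuotientGroup.mk' D)
  let q : X →* Q := (QuotientGroup.mk' D).subgroupMap X
  have hqs : Function.Surjective q := (QuotientGroup.mk' D).subgroupMap_surjective X
  -- minimality
  have hmin : ∀ Z : Subgroup X, Z.FG → Z ≠ ⊥ → NoZ Z → Z.map q = ⊤ := by
    intro Z hZ hZ1 hZN
    let Z' : Subgroup G := Z.map X.subtype
    have hZ'X : Z' ≤ X := by
      rintro _ ⟨z, -, rfl⟩
      exact z.2
    have e : Z ≃* Z' := Z.equivMapOfInjective X.subtype X.subtype_injective
    have hZ'fg : Z'.FG := by
      have h1 : Group.FG Z := (Group.fg_iff_subgroup_fg Z).2 hZ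
      exact (Group.fg_iff_subgroup_fg Z').1 (Group.fg_of_surjective (f := e.toMonoidHom) e.surjective)
    have hZ'1 : Z' ≠ ⊥ := by
      intro h
      apply hZ1
      exact (Subgroup.map_eq_bot_iff_of_injective Z X.subtype_injective).1 h
    have hZ'N : NoZ Z' := noZ_of_surjective e.toMonoidHom e.surjective hZN
    have hmem : Nat.card (Z'.map (QuotientGroup.mk' D)) ∈ S := ⟨Z', hZ'fg, hZ'1, hZ'N, rfl⟩
    have hle := Nat.sInf_le hmem
    rw [← hXc] at hle
    have heq : Z'.map (QuotientGroup.mk' D) = X.map (QuotientGroup.mk' D) :=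
      Subgroup.eq_of_le_of_card_ge (Subgroup.map_mono hZ'X) hle
    rw [eq_top_iff]
    rintro ⟨y, hy⟩ -
    have hy' : y ∈ X.map (QuotientGroup.mk' D) := hy
    rw [← heq] at hy'
    obtain ⟨_, ⟨z, hz, rfl⟩, hzy⟩ := hy'
    exact ⟨z, hz, Subtype.ext hzy⟩
  have hQnt : Nontrivial Q := by
    by_contra hcon
    rw [not_nontrivial_iff_subsingleton] at hcon
    have hle : X ≤ D := by
      intro x hx
      have h1 : q ⟨x, hx⟩ = 1 := Subsingleton.elim _ _
      have h2 : (QuotientGroup.mk' D) x = 1 := congrArg Subtype.val h1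
      exact (QuotientGroup.eq_one_iff x).1 h2
    have hXLI : LocallyIndicable X :=
      LI.of_injective (Subgroup.inclusion hle) (Subgroup.inclusion_injective hle) hD
    exact LI.not_noZ hXLI hXfg hXne hXN
  let _ : CommGroup (G ⧸ D) := inferInstanceAs (CommGroup (Abelianization G))
  obtain ⟨p, f, hp, hf⟩ := exists_surj_zmod Q
  refine ⟨X, p, f.comp q, hp, hf.comp hqs, hXfg, hXN, ?_, ?_⟩
  · intro g n hn hg
    refine Subtype.ext (htf g.1 n hn ?_)
    have := congrArg Subtype.val hg
    simpa using this
  · intro Z hZ hZ1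
    by_contra hcon
    have hZN : NoZ Z := fun g hg => hcon ⟨g, hg⟩
    let Z' : Subgroup X := Z.map (f.comp q).ker.subtype
    have e : Z ≃* Z' := Z.equivMapOfInjective _ (f.comp q).ker.subtype_injective
    have hZ'fg : Z'.FG := by
      have h1 : Group.FG Z := (Group.fg_iff_subgroup_fg Z).2 hZ
      exact (Group.fg_iff_subgroup_fg Z').1 (Group.fg_of_surjective (f := e.toMonoidHom) e.surjective)
    have hZ'1 : Z' ≠ ⊥ := by
      intro h
      apply hZ1
      exact (Subgroup.map_eq_bot_iff_of_injective Z (f.comp q).ker.subtype_injective).1 h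
    have hZ'N : NoZ Z' := noZ_of_surjective e.toMonoidHom e.surjective hZN
    have htop := hmin Z' hZ'fg hZ'1 hZ'N
    have : Fact p.Prime := ⟨hp⟩
    obtain ⟨y, hy⟩ := hf (Multiplicative.ofAdd 1)
    have hy' : y ∈ Z'.map q := by rw [htop]; trivial
    obtain ⟨_, ⟨z, -, rfl⟩, hzy⟩ := hy'
    have h1 : (f.comp q) z.1 = 1 := z.2
    have h2 : f y = 1 := by rw [← hzy]; exact h1
    rw [hy] at h2
    have h3 : (1 : ZMod p) = 0 := congrArg Multiplicative.toAdd h2
    exact one_ne_zero h3

/-- `G` has a locally indicable normal subgroup with solvable quotient. -/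
def LIBySolvable (G : Type) [Group G] : Prop :=
  ∃ A : Subgroup G, ∃ _ : A.Normal, LocallyIndicable A ∧ Group.IsSolvable (G ⧸ A)

lemma exists_core2_of_derived (G : Type) [Group G] (htf : TorsionFree G) (n : ℕ)
    (hD : LocallyIndicable (derivedSeries G n)) (hG : ¬ LocallyIndicable G) :
    ∃ (X : Subgroup G) (p : ℕ) (χ : X →* Multiplicative (ZMod p)), Core2 X p χ := by
  classical
  -- the last derived subgroup which is not locally indicable
  have hex : ∃ i, LocallyIndicable (derivedSeries G i) := ⟨n, hD⟩
  obtain ⟨i, hi, hmin⟩ : ∃ i, LocallyIndicable (derivedSeries G i) ∧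
      ∀ j < i, ¬ LocallyIndicable (derivedSeries G j) :=
    ⟨Nat.find hex, Nat.find_spec hex, fun j hj => Nat.find_min hex hj⟩
  rcases i with _ | i
  · exfalso
    apply hG
    rw [derivedSeries_zero] at hi
    exact LI.of_injective (G := (⊤ : Subgroup G))
      (Subgroup.topEquiv (G := G)).symm.toMonoidHom (Subgroup.topEquiv (G := G)).symm.injective hi
  · let E := derivedSeries G i
    have hE : ¬ LocallyIndicable E := hmin i (Nat.lt_succ_self i)
    have hcomm : LocallyIndicable (commutator E) := by
      have hle : ∀ x : commutator E, (x.1 : G) ∈ derivedSeries G (i + 1) := by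
        intro x
        rw [derivedSeries_succ]
        have h1 : (commutator E).map E.subtype = ⁅E, E⁆ := by
          rw [commutator_def, Subgroup.map_commutator, ← MonoidHom.range_eq_map,
            Subgroup.range_subtype]
        rw [show ⁅derivedSeries G i, derivedSeries G i⁆ = ⁅E, E⁆ from rfl, ← h1]
        exact ⟨x.1, x.2, rfl⟩
      refine LI.of_injective ((E.subtype.comp (commutator E).subtype).codRestrict
        (derivedSeries G (i + 1)) hle) ?_ hi
      intro a b hab
      have h1 := congrArg Subtype.val hab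
      exact Subtype.ext (Subtype.ext h1)
    obtain ⟨X, p, χ, hc⟩ := exists_core2_aux E (fun g n hn hg => by
      refine Subtype.ext (htf g.1 n hn ?_)
      have := congrArg Subtype.val hg
      simpa using this) hcomm hE
    let X' : Subgroup G := X.map E.subtype
    have e : X ≃* X' := X.equivMapOfInjective E.subtype E.subtype_injective
    refine ⟨X', p, χ.comp e.symm.toMonoidHom, hc.prime, hc.surj.comp e.symm.surjective, ?_, ?_, ?_,
      ?_⟩
    · have := hc.fg
      exact Group.fg_of_surjective (f := e.toMonoidHom) e.surjective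
    · exact noZ_of_surjective e.toMonoidHom e.surjective hc.noz
    · intro g n hn hg
      refine Subtype.ext (htf g.1 n hn ?_)
      have := congrArg Subtype.val hg
      simpa using this
    · refine LI.of_injective ((e.symm.toMonoidHom.comp
        (χ.comp e.symm.toMonoidHom).ker.subtype).codRestrict χ.ker (fun x => x.2)) ?_ hc.ker
      intro a b hab
      have h1 := congrArg Subtype.val hab
      exact Subtype.ext (e.symm.injective h1)

/-- A torsion-free group which is not locally indicable and has a locally indicable normal subgroup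
with solvable quotient contains a core. -/
lemma exists_core2 (G : Type) [Group G] (htf : TorsionFree G) (hs : LIBySolvable G)
    (hG : ¬ LocallyIndicable G) :
    ∃ (X : Subgroup G) (p : ℕ) (χ : X →* Multiplicative (ZMod p)), Core2 X p χ := by
  obtain ⟨A, hAn, hA, hsol⟩ := hs
  obtain ⟨n, hn⟩ := hsol.solvable
  refine exists_core2_of_derived G htf n ?_ hG
  have hle : derivedSeries G n ≤ A := by
    have h1 : (derivedSeries G n).map (QuotientGroup.mk' A) ≤ derivedSeries (G ⧸ A) n :=
      map_derivedSeries_le_derivedSeries _ n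
    rw [hn] at h1
    intro x hx
    have h2 := h1 ⟨x, hx, rfl⟩
    rw [Subgroup.mem_bot] at h2
    exact (QuotientGroup.eq_one_iff x).1 h2
  exact LI.of_injective (Subgroup.inclusion hle) (Subgroup.inclusion_injective hle) hA

end Pool.Agent.H27.Ord
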