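import Pool.Agent.H27.Ord.Big

set_option autoImplicit false

/-!
# The general theorem
-/

namespace Pool.Agent.H27.Ord

open Pool.Agent.H83.Ord

lemma Core2.transport {X Y : Type} [Group X] [Group Y] {p : ℕ} {χ : X →* Multiplicative (ZMod p)}
    (hc : Core2 X p χ) (e : X ≃* Y) : Core2 Y p (χ.comp e.symm.toMonoidHom) := by
  refine ⟨hc.prime, hc.surj.comp e.symm.surjective, ?_, ?_, ?_, ?_⟩
  · have := hc.fg
    exact Group.fg_of_surjective (f := e.toMonoidHom) e.surjective
  · exact noZ_of_surjective e.toMonoidHom e.surjective hc.noz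
  · intro g n hn hg
    have h1 : (e.symm g) ^ n = 1 := by rw [← map_pow, hg, map_one]
    have h2 := hc.tf _ n hn h1
    rw [← e.apply_symm_apply g, h2, map_one]
  · refine LI.of_injective ((e.symm.toMonoidHom.comp
      (χ.comp e.symm.toMonoidHom).ker.subtype).codRestrict χ.ker (fun x => x.2)) ?_ hc.ker
    intro a b hab
    have h1 := congrArg Subtype.val hab
    exact Subtype.ext (e.symm.injective h1)

/-- Every finitely generated subgroup has a locally indicable normal subgroup with solvable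
quotient. -/
def LocallyLIBySolvable (G : Type) [Group G] : Prop :=
  ∀ X : Subgroup G, X.FG → LIBySolvable X

lemma exists_core2' (P : Type) [Group P] (htf : TorsionFree P) (hloc : LocallyLIBySolvable P)
    (hP : ¬ LocallyIndicable P) :
    ∃ X : Subgroup P, X.FG ∧ ∃ (p : ℕ) (χ : X →* Multiplicative (ZMod p)), Core2 X p χ := by
  have h0 := hP
  unfold LocallyIndicable at h0
  push Not at h0
  obtain ⟨X₀, hX₀, hX₁, hN⟩ := h0
  have hfg : Group.FG X₀ := (Group.fg_iff_subgroup_fg X₀).2 hX₀
  have hne : ∃ g : X₀, g ≠ 1 := by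
    by_contra hcon
    push Not at hcon
    apply hX₁
    rw [Subgroup.eq_bot_iff_forall]
    intro x hx
    exact congrArg Subtype.val (hcon ⟨x, hx⟩)
  have hnot : ¬ LocallyIndicable X₀ := fun h => LI.not_noZ h hfg hne (fun f hf => hN f hf)
  obtain ⟨X, p, χ, hc⟩ := exists_core2 X₀ (fun g n hn hg => by
      refine Subtype.ext (htf g.1 n hn ?_)
      have := congrArg Subtype.val hg
      simpa using this) (hloc X₀ hX₀) hnot
  have e : X ≃* X.map X₀.subtype := X.equivMapOfInjective X₀.subtype X₀.subtype_injective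
  have hc' := hc.transport e
  exact ⟨X.map X₀.subtype, (Group.fg_iff_subgroup_fg _).1 hc'.fg, p, _, hc'⟩

/-- The general statement. -/
theorem infinite_failing_gen (K : GroupClass)
    (hK1 : ∀ (G : Type) [Group G], LocallyIndicable G → K G)
    (C : GroupClass)
    (hCsub : ∀ (G : Type) [Group G], C G → ∀ H : Subgroup G, C H)
    (hCpow : ∀ (G : Type) [Group G], C G → ∀ ι : Type, Finite ι → C (ι → G))
    (hCtf : ∀ (G : Type) [Group G], C G → TorsionFree G)
    (S : Set QuasiIdentity) (hS : Defines S K C)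
    (P : Type) [Group P] (hP : C P) (hloc : LocallyLIBySolvable P) (hPK : ¬ LocallyIndicable P)
    (hbeta : ∀ (X : Subgroup P), X.FG → ∀ (ι : Type) [Finite ι] (E : Subgroup (ι → X)),
      Group.FG E → NoZ E → (∃ x : E, x ≠ 1) → ¬ K E) :
    {σ ∈ S | ¬ σ.HoldsIn P}.Infinite := by
  classical
  intro hfin
  obtain ⟨X, hXfg, p, χ, hC⟩ := exists_core2' P (hCtf P hP) hloc hPK
  have : Fact p.Prime := ⟨hC.prime⟩
  obtain ⟨a, y, hy, hay⟩ := hC.exists_second
  -- a bound for the number of variables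
  obtain ⟨r, hr⟩ : ∃ r : ℕ, ∀ σ ∈ {σ ∈ S | ¬ σ.HoldsIn P}, σ.vars ≤ r := by
    refine ⟨hfin.toFinset.sup QuasiIdentity.vars, fun σ hσ => ?_⟩
    exact Finset.le_sup (f := QuasiIdentity.vars) (hfin.mem_toFinset.2 hσ)
  have hfinI := finite_idx2 (p := p) (r + 2)
  let E : Subgroup (Idx2 p (r + 2) → X) := HH χ a (r + 2)
  have hCX : C X := hCsub P hP X
  have hCpow' : C (Idx2 p (r + 2) → X) := hCpow X hCX _ hfinI
  have hCE : C E := hCsub _ hCpow' E
  have hEK : ¬ K E := hbeta X hXfg (Idx2 p (r + 2)) E (HH_fg hC _) (HH_noZ hC y hy hay _)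
    (HH_ne hC r)
  have hEex : ∃ σ ∈ S, ¬ σ.HoldsIn E := by
    by_contra hcon
    push Not at hcon
    exact hEK ((hS E hCE).2 hcon)
  obtain ⟨σ, hσS, hσE⟩ := hEex
  have hσP : ¬ σ.HoldsIn P := by
    intro h
    apply hσE
    have h1 : σ.HoldsIn X := holdsIn_of_injective σ X.subtype X.subtype_injective h
    have h2 : σ.HoldsIn (Idx2 p (r + 2) → X) := holdsIn_pi σ _ h1
    exact holdsIn_of_injective σ E.subtype E.subtype_injective h2
  have hvars : σ.vars ≤ r := hr σ ⟨hσS, hσP⟩
  -- the violating tuple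
  unfold QuasiIdentity.HoldsIn at hσE
  push Not at hσE
  obtain ⟨x, hx1, hx2⟩ := hσE
  let W : Subgroup E := Subgroup.closure (Set.range x)
  choose v hv using fun j => ((x j).2 : ∃ u, ∀ L : Idx2 p (r + 2), qq χ a ((x j).1 L) = L.1 u)
  let U₀ : Submodule (ZMod p) (Fin (r + 2) → ZMod p) := Submodule.span (ZMod p) (Set.range v)
  have hU₀ : U₀ ≠ ⊤ := by
    intro h
    have h1 : Module.finrank (ZMod p) U₀ ≤ σ.vars := by
      have := finrank_range_le_card (R := ZMod p) v
      rwa [Fintype.card_fin] at this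
    rw [h, finrank_top, Module.finrank_fin_fun] at h1
    omega
  have hWLI : LocallyIndicable W := by
    refine HH_small (a := a) hC U₀ hU₀ W (E.subtype.comp W.subtype)
      (E.subtype_injective.comp W.subtype_injective) ?_
    rintro ⟨w, hw⟩
    show ∃ u ∈ U₀, ∀ L : Idx2 p (r + 2), qq χ a (w.1 L) = L.1 u
    induction hw using Subgroup.closure_induction with
    | mem w hw =>
      obtain ⟨j, rfl⟩ := hw
      exact ⟨v j, Submodule.subset_span ⟨j, rfl⟩, hv j⟩
    | one => exact ⟨0, zero_mem _, fun L => by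
        rw [map_zero]; exact qq_one χ a⟩
    | mul g h _ _ hg hh =>
      obtain ⟨u, hu, eu⟩ := hg
      obtain ⟨u', hu', eu'⟩ := hh
      exact ⟨u + u', add_mem hu hu', fun L => by
        rw [map_add, ← eu, ← eu', ← qq_mul]; rfl⟩
    | inv g _ hg =>
      obtain ⟨u, hu, eu⟩ := hg
      exact ⟨-u, neg_mem hu, fun L => by rw [map_neg, ← eu, ← qq_inv]; rfl⟩
  have hCW : C W := hCsub E hCE W
  have hWσ := (hS W hCW).1 (hK1 W hWLI) σ hσS
  -- transfer of the tuple
  let x' : Fin σ.vars → W := fun j => ⟨x j, Subgroup.subset_closure ⟨j, rfl⟩⟩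
  have hlift : ∀ w, ((FreeGroup.lift x' w : W) : E) = FreeGroup.lift x w := by
    intro w
    have : W.subtype.comp (FreeGroup.lift x') = FreeGroup.lift x := by
      apply FreeGroup.ext_hom
      intro j
      simp [x']
    exact DFunLike.congr_fun this w
  apply hx2
  rw [← hlift]
  have h3 : FreeGroup.lift x' σ.conclusion = 1 := by
    apply hWσ
    intro u hu
    apply Subtype.ext
    rw [hlift, hx1 u hu]; rfl
  rw [h3]; rfl

/-- The case of the locally indicable groups. -/
theorem infinite_failing_LI (C : GroupClass)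
    (hCsub : ∀ (G : Type) [Group G], C G → ∀ H : Subgroup G, C H)
    (hCpow : ∀ (G : Type) [Group G], C G → ∀ ι : Type, Finite ι → C (ι → G))
    (hCtf : ∀ (G : Type) [Group G], C G → TorsionFree G)
    (S : Set QuasiIdentity) (hS : Defines S LocallyIndicable C)
    (P : Type) [Group P] (hP : C P) (hloc : LocallyLIBySolvable P) (hPK : ¬ LocallyIndicable P) :
    {σ ∈ S | ¬ σ.HoldsIn P}.Infinite := by
  refine infinite_failing_gen LocallyIndicable (fun _ _ h => h) C hCsub hCpow hCtf S hS P hP hloc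
    hPK ?_
  intro X _ ι _ E hfg hN hne hLI
  exact LI.not_noZ hLI hfg hne hN

end Pool.Agent.H27.Ord
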