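import Mathlib

set_option autoImplicit false

/-!
# The Markov-Kakutani fixed point theorem in a power of the real line, and invariant finitely
additive probability measures for solvable groups
-/

namespace Pool.Agent.H27.Ord

open scoped commutatorElement

section MK

variable {ι J : Type*} (K : Set (ι → ℝ)) (T : J → (ι → ℝ) →L[ℝ] (ι → ℝ))

/-- Averages of powers of the maps. -/
noncomputable def avg (jn : J × ℕ) (x : ι → ℝ) : ι → ℝ :=
  ((jn.2 : ℝ) + 1)⁻¹ • ∑ k ∈ Finset.range (jn.2 + 1), (T jn.1 ^ k) x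

/-- Composition of averages. -/
noncomputable def bvg : List (J × ℕ) → (ι → ℝ) → (ι → ℝ)
  | [], x => x
  | (a :: l), x => avg T a (bvg l x)

variable {K T}

lemma pow_maps (hT : ∀ j, ∀ x ∈ K, T j x ∈ K) (j : J) (k : ℕ) : ∀ x ∈ K, (T j ^ k) x ∈ K := by
  induction k with
  | zero => intro x hx; simpa using hx
  | succ k ih =>
    intro x hx
    rw [pow_succ]
    exact ih _ (hT j x hx)

lemma pow_comm (hT : ∀ j, ∀ x ∈ K, T j x ∈ K) (hc : ∀ i j, ∀ x ∈ K, T i (T j x) = T j (T i x))
    (i j : J) (k l : ℕ) : ∀ x ∈ K, (T i ^ k) ((T j ^ l) x) = (T j ^ l) ((T i ^ k) x) := by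
  have h1 : ∀ (l : ℕ), ∀ x ∈ K, T i ((T j ^ l) x) = (T j ^ l) (T i x) := by
    intro l
    induction l with
    | zero => intro x _; simp
    | succ l ih =>
      intro x hx
      rw [pow_succ]
      show T i ((T j ^ l) (T j x)) = (T j ^ l) (T j (T i x))
      rw [ih _ (hT j x hx), hc i j x hx]
  induction k with
  | zero => intro x _; simp
  | succ k ih =>
    intro x hx
    rw [pow_succ]
    show (T i ^ k) (T i ((T j ^ l) x)) = (T j ^ l) ((T i ^ k) (T i x))
    rw [h1 l x hx, ih _ (hT i x hx)]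

lemma avg_mem (hconv : Convex ℝ K) (hT : ∀ j, ∀ x ∈ K, T j x ∈ K) (a : J × ℕ) :
    ∀ x ∈ K, avg T a x ∈ K := by
  intro x hx
  unfold avg
  rw [Finset.smul_sum]
  refine hconv.sum_mem (fun _ _ => by positivity) ?_ (fun k _ => pow_maps hT a.1 k x hx)
  rw [Finset.sum_const, Finset.card_range, nsmul_eq_mul]
  push_cast
  exact mul_inv_cancel₀ (by positivity)

lemma avg_comm (hT : ∀ j, ∀ x ∈ K, T j x ∈ K)
    (hc : ∀ i j, ∀ x ∈ K, T i (T j x) = T j (T i x)) (a b : J × ℕ) :
    ∀ x ∈ K, avg T a (avg T b x) = avg T b (avg T a x) := by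
  intro x hx
  unfold avg
  simp only [map_smul, map_sum, ← Finset.smul_sum]
  rw [smul_comm]
  congr 2
  rw [Finset.sum_comm]
  refine Finset.sum_congr rfl fun k _ => Finset.sum_congr rfl fun l _ => ?_
  exact pow_comm hT hc a.1 b.1 l k x hx

lemma bvg_mem (hconv : Convex ℝ K) (hT : ∀ j, ∀ x ∈ K, T j x ∈ K) (l : List (J × ℕ)) :
    ∀ x ∈ K, bvg T l x ∈ K := by
  induction l with
  | nil => intro x hx; exact hx
  | cons a l ih => intro x hx; exact avg_mem hconv hT a _ (ih x hx)

lemma bvg_append (l l' : List (J × ℕ)) (x : ι → ℝ) : bvg T (l ++ l') x = bvg T l (bvg T l' x) := by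
  induction l with
  | nil => rfl
  | cons a l ih =>
    show avg T a (bvg T (l ++ l') x) = avg T a (bvg T l (bvg T l' x))
    rw [ih]

lemma bvg_comm (hconv : Convex ℝ K) (hT : ∀ j, ∀ x ∈ K, T j x ∈ K)
    (hc : ∀ i j, ∀ x ∈ K, T i (T j x) = T j (T i x)) (l l' : List (J × ℕ)) :
    ∀ x ∈ K, bvg T l (bvg T l' x) = bvg T l' (bvg T l x) := by
  have h1 : ∀ (a : J × ℕ) (l' : List (J × ℕ)), ∀ x ∈ K,
      avg T a (bvg T l' x) = bvg T l' (avg T a x) := by
    intro a l'
    induction l' with
    | nil => intro x _; rfl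
    | cons b l' ih =>
      intro x hx
      show avg T a (avg T b (bvg T l' x)) = avg T b (bvg T l' (avg T a x))
      rw [avg_comm hT hc a b _ (bvg_mem hconv hT l' x hx), ih x hx]
  induction l with
  | nil => intro x _; rfl
  | cons a l ih =>
    intro x hx
    show avg T a (bvg T l (bvg T l' x)) = bvg T l' (avg T a (bvg T l x))
    rw [ih x hx, h1 a l' _ (bvg_mem hconv hT l x hx)]

lemma avg_continuous (a : J × ℕ) : Continuous (avg T a) := by
  unfold avg
  fun_prop

lemma bvg_continuous (l : List (J × ℕ)) : Continuous (bvg T l) := by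
  induction l with
  | nil => exact continuous_id
  | cons a l ih => exact (avg_continuous a).comp ih

/-- The Markov-Kakutani fixed point theorem for linear maps of a power of the real line. -/
theorem markov_kakutani (hK : IsCompact K) (hconv : Convex ℝ K) (hne : K.Nonempty)
    (h01 : ∀ x ∈ K, ∀ i, 0 ≤ x i ∧ x i ≤ 1) (hT : ∀ j, ∀ x ∈ K, T j x ∈ K)
    (hc : ∀ i j, ∀ x ∈ K, T i (T j x) = T j (T i x)) :
    ∃ y ∈ K, ∀ j, T j y = y := by
  classical
  have hdir : Directed (fun s t : Set (ι → ℝ) => s ⊇ t) fun l : List (J × ℕ) => bvg T l '' K := by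
    intro l l'
    refine ⟨l ++ l', ?_, ?_⟩
    · rintro _ ⟨x, hx, rfl⟩
      rw [bvg_append]
      exact ⟨_, bvg_mem hconv hT l' x hx, rfl⟩
    · rintro _ ⟨x, hx, rfl⟩
      rw [bvg_append, bvg_comm hconv hT hc l l' x hx]
      exact ⟨_, bvg_mem hconv hT l x hx, rfl⟩
  have hcomp : ∀ l : List (J × ℕ), IsCompact (bvg T l '' K) := fun l =>
    hK.image (bvg_continuous l)
  obtain ⟨y, hy⟩ := IsCompact.nonempty_iInter_of_directed_nonempty_isCompact_isClosed
    (fun l : List (J × ℕ) => bvg T l '' K) hdir (fun l => hne.image _) hcomp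
    (fun l => (hcomp l).isClosed)
  rw [Set.mem_iInter] at hy
  have hyK : y ∈ K := by
    obtain ⟨x, hx, hxy⟩ := hy []
    rw [← hxy]; exact hx
  refine ⟨y, hyK, fun j => ?_⟩
  funext i
  have hb : ∀ n : ℕ, |T j y i - y i| ≤ 1 / ((n : ℝ) + 1) := by
    intro n
    obtain ⟨x, hx, hxy⟩ := hy [(j, n)]
    have h1 : y = ((n : ℝ) + 1)⁻¹ • ∑ k ∈ Finset.range (n + 1), (T j ^ k) x := hxy.symm
    have h2 : T j y - y = ((n : ℝ) + 1)⁻¹ • ((T j ^ (n + 1)) x - x) := by
      rw [h1, map_smul, map_sum, ← smul_sub]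
      congr 1
      have h3 : ∀ k, T j ((T j ^ k) x) = (T j ^ (k + 1)) x := by
        intro k
        rw [pow_succ']
        rfl
      simp only [h3]
      rw [← Finset.sum_sub_distrib, Finset.sum_range_sub (fun k => (T j ^ k) x)]
      rw [pow_zero]
      rfl
    have h3 : T j y i - y i = ((n : ℝ) + 1)⁻¹ * ((T j ^ (n + 1)) x i - x i) := congrFun h2 i
    have h4 := h01 _ (pow_maps hT j (n + 1) x hx) i
    have h5 := h01 _ hx i
    have h6 : |(T j ^ (n + 1)) x i - x i| ≤ 1 := by
      rw [abs_le]; constructor <;> linarith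
    rw [h3, abs_mul, abs_of_pos (by positivity : (0:ℝ) < ((n : ℝ) + 1)⁻¹), one_div]
    exact mul_le_of_le_one_right (by positivity) h6
  have h0 : |T j y i - y i| ≤ 0 :=
    ge_of_tendsto' tendsto_one_div_add_atTop_nhds_zero_nat hb
  exact sub_eq_zero.1 (abs_nonpos_iff.1 h0)

end MK

/-- Finitely additive probability measures on all subsets. -/
structure IsMean {Ω : Type*} (m : Set Ω → ℝ) : Prop where
  nonneg : ∀ A, 0 ≤ m A
  univ : m Set.univ = 1
  add : ∀ A B, Disjoint A B → m (A ∪ B) = m A + m B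

section

variable {Ω : Type*} {m : Set Ω → ℝ}

lemma IsMean.mono (hm : IsMean m) {A B : Set Ω} (h : A ⊆ B) : m A ≤ m B := by
  have h1 := hm.add A (B \ A) Set.disjoint_sdiff_right
  rw [Set.union_sdiff_cancel h] at h1
  have := hm.nonneg (B \ A)
  linarith

lemma IsMean.le_one (hm : IsMean m) (A : Set Ω) : m A ≤ 1 := by
  rw [← hm.univ]; exact hm.mono (Set.subset_univ A)

lemma isCompact_means : IsCompact {m : Set Ω → ℝ | IsMean m} := by
  have h1 : IsCompact (Set.pi Set.univ fun _ : Set Ω => Set.Icc (0:ℝ) 1) :=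
    isCompact_univ_pi fun _ => isCompact_Icc
  refine h1.of_isClosed_subset ?_ ?_
  · have : {m : Set Ω → ℝ | IsMean m} = (⋂ A, {m | 0 ≤ m A}) ∩ ({m | m Set.univ = 1} ∩
        ⋂ A, ⋂ B, ⋂ (_ : Disjoint A B), {m | m (A ∪ B) = m A + m B}) := by
      ext m
      simp only [Set.mem_ofPred_eq, Set.mem_inter_iff, Set.mem_iInter]
      exact ⟨fun h => ⟨h.1, h.2, h.3⟩, fun h => ⟨h.1, h.2.1, h.2.2⟩⟩
    rw [this]
    refine IsClosed.inter (isClosed_iInter fun A => isClosed_le continuous_const (continuous_apply A))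
      (IsClosed.inter (isClosed_eq (continuous_apply _) continuous_const)
        (isClosed_iInter fun A => isClosed_iInter fun B => isClosed_iInter fun _ =>
          isClosed_eq (continuous_apply _) ((continuous_apply A).add (continuous_apply B))))
  · intro m hm A _
    exact ⟨hm.nonneg A, IsMean.le_one hm A⟩

lemma convex_means : Convex ℝ {m : Set Ω → ℝ | IsMean m} := by
  intro m hm m' hm' a b ha hb hab
  refine ⟨fun A => ?_, ?_, fun A B hAB => ?_⟩
  · show 0 ≤ a * m A + b * m' A
    have := hm.nonneg A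
    have := hm'.nonneg A
    positivity
  · show a * m Set.univ + b * m' Set.univ = 1
    rw [hm.univ, hm'.univ, mul_one, mul_one, hab]
  · show a * m (A ∪ B) + b * m' (A ∪ B) = (a * m A + b * m' A) + (a * m B + b * m' B)
    rw [hm.add A B hAB, hm'.add A B hAB]; ring

end

section

variable {G Ω : Type*} [Group G] [MulAction G Ω]

/-- The action of a group element on functions of sets. -/
noncomputable def TT (g : G) : (Set Ω → ℝ) →L[ℝ] (Set Ω → ℝ) where
  toFun m := fun A => m ((fun ω => g • ω) ⁻¹' A)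
  map_add' _ _ := rfl
  map_smul' _ _ := rfl
  cont := by fun_prop

lemma TT_apply (g : G) (m : Set Ω → ℝ) (A : Set Ω) : TT g m A = m ((fun ω => g • ω) ⁻¹' A) := rfl

lemma TT_mul (g h : G) (m : Set Ω → ℝ) : TT (g * h) m = TT g (TT h m) := by
  funext A
  rw [TT_apply, TT_apply, TT_apply]
  congr 1
  ext ω
  simp only [Set.mem_preimage, mul_smul]

lemma TT_isMean (g : G) {m : Set Ω → ℝ} (hm : IsMean m) : IsMean (TT g m) := by
  refine ⟨fun A => hm.nonneg _, hm.univ, fun A B hAB => ?_⟩
  rw [TT_apply, Set.preimage_union]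
  exact hm.add _ _ (hAB.preimage _)

/-- Solvable groups have invariant finitely additive probability measures on every set they act
on. -/
theorem exists_invariant_mean (hs : Group.IsSolvable G) (hne : Nonempty Ω) :
    ∃ m : Set Ω → ℝ, IsMean m ∧ ∀ g : G, TT g m = m := by
  classical
  obtain ⟨n, hn⟩ := hs.solvable
  have key : ∀ k ≤ n, ∃ m : Set Ω → ℝ, IsMean m ∧ ∀ g ∈ derivedSeries G (n - k), TT g m = m := by
    intro k
    induction k with
    | zero =>
      intro _
      obtain ⟨ω⟩ := hne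
      refine ⟨fun A => if ω ∈ A then 1 else 0, ⟨fun A => ?_, ?_, fun A B hAB => ?_⟩, ?_⟩
      · show (0:ℝ) ≤ if ω ∈ A then 1 else 0
        split_ifs <;> norm_num
      · simp
      · have h1 : ¬ (ω ∈ A ∧ ω ∈ B) := fun h => Set.disjoint_left.1 hAB h.1 h.2
        by_cases hA : ω ∈ A
        · have hB : ω ∉ B := fun h => h1 ⟨hA, h⟩
          simp [hA, hB]
        · simp [hA]
      · intro g hg
        rw [Nat.sub_zero, hn, Subgroup.mem_bot] at hg
        subst hg
        funext A
        rw [TT_apply]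
        simp
    | succ k ih =>
      intro hk
      obtain ⟨m₀, hm₀, hinv₀⟩ := ih (by omega)
      have hj : n - k = (n - (k + 1)) + 1 := by omega
      rw [hj] at hinv₀
      let D := derivedSeries G (n - (k + 1) + 1)
      let E := derivedSeries G (n - (k + 1))
      let Kc : Set (Set Ω → ℝ) := {m | IsMean m ∧ ∀ g ∈ D, TT g m = m}
      have hKc : Kc = {m | IsMean m} ∩ ⋂ g ∈ D, {m | TT g m = m} := by
        ext m
        simp only [Kc, Set.mem_inter_iff, Set.mem_iInter, Set.mem_ofPred_eq]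
      have hcomp : IsCompact Kc := by
        rw [hKc]
        exact isCompact_means.inter_right (isClosed_biInter fun g _ =>
          isClosed_eq (TT g).continuous continuous_id)
      have hconv : Convex ℝ Kc := by
        intro m hm m' hm' a b ha hb hab
        refine ⟨convex_means hm.1 hm'.1 ha hb hab, fun g hg => ?_⟩
        rw [map_add, map_smul, map_smul, hm.2 g hg, hm'.2 g hg]
      have hDn : D.Normal := inferInstance
      obtain ⟨m, hm, hfix⟩ := markov_kakutani (K := Kc) (T := fun g : E => TT (g : G)) hcomp hconv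
        ⟨m₀, hm₀, hinv₀⟩ (fun m hm A => ⟨hm.1.nonneg A, hm.1.le_one A⟩)
        (by
          intro g m hm
          refine ⟨TT_isMean _ hm.1, fun h hh => ?_⟩
          rw [← TT_mul, show h * (g : G) = g * ((g : G)⁻¹ * h * g) by group, TT_mul,
            hm.2 _ (by have := hDn.conj_mem h hh (g : G)⁻¹; simpa using this)])
        (by
          intro g h m hm
          rw [← TT_mul, ← TT_mul]
          have hc : ((g : G) * h)⁻¹ * ((h : G) * g) ∈ D := by
            show _ ∈ derivedSeries G (n - (k + 1) + 1)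
            rw [derivedSeries_succ]
            have h1 : ((g : G) * h)⁻¹ * ((h : G) * g) = ⁅((h : G))⁻¹, ((g : G))⁻¹⁆ := by
              rw [commutatorElement_def]; group
            rw [h1]
            exact Subgroup.commutator_mem_commutator (inv_mem h.2) (inv_mem g.2)
          have h2 : (h : G) * g = (g : G) * h * (((g : G) * h)⁻¹ * ((h : G) * g)) := by group
          show TT ((g : G) * h) m = TT ((h : G) * g) m
          rw [h2, TT_mul _ (((g : G) * h)⁻¹ * ((h : G) * g)), hm.2 _ hc])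
      exact ⟨m, hm.1, fun g hg => hfix ⟨g, hg⟩⟩
  obtain ⟨m, hm, hinv⟩ := key n le_rfl
  refine ⟨m, hm, fun g => hinv g ?_⟩
  rw [Nat.sub_self, derivedSeries_zero]
  exact Subgroup.mem_top g

end

end Pool.Agent.H27.Ord
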