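import Pool.Agent.H27.Ord.Core

set_option autoImplicit false

/-!
# A second homomorphism to the group of prime order
-/

namespace Pool.Agent.H27.Ord

open Pool.Agent.H83.Ord

/-- There are only finitely many homomorphisms from a finitely generated group to a finite group. -/
lemma finite_hom (Y A : Type*) [Group Y] [Group A] [hY : Group.FG Y] [Finite A] :
    Finite (Y →* A) := by
  obtain ⟨T, hT⟩ := (Group.fg_def (G := Y)).1 hY
  refine Finite.of_injective (fun (g : Y →* A) (t : T) => g t.1) ?_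
  intro g h hgh
  apply MonoidHom.eq_of_eqOn_dense hT
  intro t ht
  exact congrFun hgh ⟨t, ht⟩

section

variable {X : Type} [Group X] {p : ℕ} {χ : X →* Multiplicative (ZMod p)}

/-- Conjugation by the inverse of an element on a normal subgroup. -/
def kap (Y : Subgroup X) [Y.Normal] (x : X) : Y ≃* Y := MulAut.conjNormal x⁻¹

lemma kap_coe (Y : Subgroup X) [Y.Normal] (x : X) (y : Y) :
    ((kap Y x y : Y) : X) = x⁻¹ * y * x := by
  unfold kap
  rw [MulAut.conjNormal_apply, inv_inv]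

/-- A non-trivial homomorphism which is invariant under conjugation by `x` and vanishes at
`x ^ p`. -/
lemma exists_fixed_hom (hp : p.Prime) (Y : Subgroup X) [hYn : Y.Normal] (hfg : Group.FG Y) (x : X)
    (z : Y) (hz : (z : X) = x ^ p) (g₀ : Y →* Multiplicative (ZMod p)) (hg₀ : g₀ z = 1)
    (hne : g₀ ≠ 1) :
    ∃ a : Y →* Multiplicative (ZMod p), a ≠ 1 ∧ a z = 1 ∧ ∀ y, a (kap Y x y) = a y := by
  classical
  have : Fact p.Prime := ⟨hp⟩
  have hfinH : Finite (Y →* Multiplicative (ZMod p)) := finite_hom Y _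
  let V : Subgroup (Y →* Multiplicative (ZMod p)) :=
    { carrier := {g | g z = 1}
      one_mem' := rfl
      mul_mem' := by
        intro a b ha hb
        show a z * b z = 1
        rw [show a z = 1 from ha, show b z = 1 from hb, one_mul]
      inv_mem' := by
        intro a ha
        show (a z)⁻¹ = 1
        rw [show a z = 1 from ha, inv_one] }
  have hkz : kap Y x z = z := by
    apply Subtype.ext
    rw [kap_coe, hz]
    rw [mul_assoc, ← pow_succ, pow_succ', inv_mul_cancel_left]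
  have hkz' : (kap Y x).symm z = z := by rw [MulEquiv.symm_apply_eq, hkz]
  let c : Equiv.Perm V :=
    { toFun := fun g => ⟨g.1.comp (kap Y x).toMonoidHom, by
        show g.1 (kap Y x z) = 1
        rw [hkz]; exact g.2⟩
      invFun := fun g => ⟨g.1.comp (kap Y x).symm.toMonoidHom, by
        show g.1 ((kap Y x).symm z) = 1
        rw [hkz']; exact g.2⟩
      left_inv := by
        intro g
        apply Subtype.ext
        ext y
        show g.1 (kap Y x ((kap Y x).symm y)) = g.1 y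
        rw [MulEquiv.apply_symm_apply]
      right_inv := by
        intro g
        apply Subtype.ext
        ext y
        show g.1 ((kap Y x).symm (kap Y x y)) = g.1 y
        rw [MulEquiv.symm_apply_apply] }
  have hcpow : ∀ (n : ℕ) (g : V) (y : Y), ((c ^ n) g).1 y = g.1 ((kap Y x ^ n) y) := by
    intro n
    induction n with
    | zero => intro g y; rfl
    | succ n ih =>
      intro g y
      rw [pow_succ, Equiv.Perm.mul_apply, ih]
      show g.1 (kap Y x ((kap Y x ^ n) y)) = _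
      rw [pow_succ']
      rfl
  have hkpow : ∀ (n : ℕ) (y : Y), (((kap Y x ^ n) y : Y) : X) = (x ^ n)⁻¹ * y * x ^ n := by
    intro n
    induction n with
    | zero => intro y; simp
    | succ n ih =>
      intro y
      rw [pow_succ, MulAut.mul_apply, ih, kap_coe, pow_succ]
      rw [mul_inv_rev]
      rw [show x ^ n * x = x * x ^ n from by rw [← pow_succ, pow_succ']]
      rw [show x⁻¹ * (x ^ n)⁻¹ = (x ^ n)⁻¹ * x⁻¹ from by
        rw [← mul_inv_rev, ← mul_inv_rev, ← pow_succ, ← pow_succ']]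
      group
  have hcp : c ^ p = 1 := by
    apply Equiv.ext
    intro g
    apply Subtype.ext
    apply MonoidHom.ext
    intro y
    rw [hcpow]
    have h1 : (kap Y x ^ p) y = z⁻¹ * y * z := by
      apply Subtype.ext
      rw [hkpow]
      show _ = (z : X)⁻¹ * y * z
      rw [hz]
    rw [h1, map_mul, map_mul, map_inv]
    show _ = g.1 y
    rw [mul_comm, mul_inv_cancel_left]
  have hpg : IsPGroup p (Subgroup.zpowers c) := by
    have h1 : orderOf c ∣ p := orderOf_dvd_of_pow_eq_one hcp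
    rcases (Nat.dvd_prime hp).1 h1 with h | h
    · exact IsPGroup.of_card (n := 0) (by rw [Nat.card_zpowers, h, pow_zero])
    · exact IsPGroup.of_card (n := 1) (by rw [Nat.card_zpowers, h, pow_one])
  have hcard : p ∣ Nat.card V := by
    let g₁ : V := ⟨g₀, hg₀⟩
    have h1 : g₁ ≠ 1 := fun h => hne (congrArg Subtype.val h)
    have h2 : g₁ ^ p = 1 := by
      apply Subtype.ext
      apply MonoidHom.ext
      intro y
      show (g₀ ^ p) y = 1
      rw [MonoidHom.pow_apply]
      apply Multiplicative.toAdd.injective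
      rw [toAdd_pow, toAdd_one, nsmul_eq_mul, ZMod.natCast_self, zero_mul]
    have h3 := orderOf_dvd_natCard g₁
    rwa [orderOf_eq_prime h2 h1] at h3
  obtain ⟨b, hb, hb1⟩ := hpg.exists_fixed_point_of_prime_dvd_card_of_fixed_point V hcard
    (a := (1 : V)) (by
      rintro ⟨_, n, rfl⟩
      show (c ^ n) 1 = 1
      have h0 : c 1 = 1 := by
        apply Subtype.ext
        ext y
        rfl
      exact Equiv.Perm.zpow_apply_eq_self_of_apply_eq_self h0 n)
  refine ⟨b.1, fun h => hb1 (Subtype.ext h).symm, b.2, ?_⟩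
  intro y
  have h1 := hb ⟨c, Subgroup.mem_zpowers c⟩
  have h2 : c b = b := h1
  exact DFunLike.congr_fun (congrArg Subtype.val h2) y

/-- Extension of an invariant homomorphism. -/
lemma exists_extension (hp : p.Prime) (x : X) (hx : χ x = Multiplicative.ofAdd 1)
    (z : χ.ker) (hz : (z : X) = x ^ p) (a : χ.ker →* Multiplicative (ZMod p)) (haz : a z = 1)
    (ha : ∀ y, a (kap χ.ker x y) = a y) :
    ∃ b : X →* Multiplicative (ZMod p), ∀ y : χ.ker, b y = a y := by
  classical
  have : Fact p.Prime := ⟨hp⟩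
  have hpow : ∀ n : ℕ, χ (x ^ n) = Multiplicative.ofAdd (n : ZMod p) := by
    intro n
    rw [map_pow, hx, ← ofAdd_nsmul, nsmul_eq_mul, mul_one]
  have hmem : ∀ (n : ℕ) (g : X), χ g = Multiplicative.ofAdd (n : ZMod p) →
      (x ^ n)⁻¹ * g ∈ χ.ker := by
    intro n g hg
    rw [MonoidHom.mem_ker, map_mul, map_inv, hpow, hg, inv_mul_cancel]
  have hcm : ∀ (n : ℕ) (y : χ.ker), (x ^ n)⁻¹ * (y : X) * x ^ n ∈ χ.ker := by
    intro n y
    exact conj_mem χ.ker y (x ^ n)
  have hconj : ∀ (n : ℕ) (y : χ.ker), a ⟨(x ^ n)⁻¹ * y * x ^ n, hcm n y⟩ = a y := by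
    intro n
    induction n with
    | zero =>
      intro y
      congr 1
      apply Subtype.ext
      simp
    | succ n ih =>
      intro y
      have h1 := ha ⟨(x ^ n)⁻¹ * y * x ^ n, hcm n y⟩
      rw [← ih y, ← h1]
      congr 1
      apply Subtype.ext
      rw [kap_coe]
      show (x ^ (n + 1))⁻¹ * (y : X) * x ^ (n + 1) = x⁻¹ * ((x ^ n)⁻¹ * (y : X) * x ^ n) * x
      rw [pow_succ, mul_inv_rev]
      simp only [mul_assoc]
  have hind : ∀ (n k : ℕ) (g : X) (h1 : (x ^ (n + p * k))⁻¹ * g ∈ χ.ker)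
      (h2 : (x ^ n)⁻¹ * g ∈ χ.ker), a ⟨(x ^ (n + p * k))⁻¹ * g, h1⟩ = a ⟨(x ^ n)⁻¹ * g, h2⟩ := by
    intro n k g h1 h2
    have h3 : (⟨(x ^ (n + p * k))⁻¹ * g, h1⟩ : χ.ker) = (z ^ k)⁻¹ * ⟨(x ^ n)⁻¹ * g, h2⟩ := by
      apply Subtype.ext
      show (x ^ (n + p * k))⁻¹ * g = ((z : X) ^ k)⁻¹ * ((x ^ n)⁻¹ * g)
      rw [hz, pow_add, pow_mul, mul_inv_rev, mul_assoc]
    rw [h3, map_mul, map_inv, map_pow, haz, one_pow, inv_one, one_mul]
  have hval : ∀ g : X, χ g = Multiplicative.ofAdd (((Multiplicative.toAdd (χ g)).val : ℕ) : ZMod p) := by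
    intro g
    rw [ZMod.natCast_zmod_val, ofAdd_toAdd]
  let i : X → ℕ := fun g => (Multiplicative.toAdd (χ g)).val
  refine ⟨MonoidHom.mk' (fun g => a ⟨(x ^ i g)⁻¹ * g, hmem _ g (hval g)⟩) ?_, ?_⟩
  · intro g h
    have hij : ∃ k, i g + i h = i (g * h) + p * k := by
      refine ⟨(i g + i h) / p, ?_⟩
      have h1 : i (g * h) = (i g + i h) % p := by
        show (Multiplicative.toAdd (χ (g * h))).val = _
        rw [map_mul, toAdd_mul, ZMod.val_add]
      rw [h1, Nat.mod_add_div]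
    obtain ⟨k, hk⟩ := hij
    have hm1 : (x ^ (i (g * h) + p * k))⁻¹ * (g * h) ∈ χ.ker := by
      rw [← hk]
      apply hmem
      rw [map_mul, hval g, hval h, ← ofAdd_add]
      push_cast
      rfl
    show a _ = a _ * a _
    rw [← hind (i (g * h)) k (g * h) hm1, ← hconj (i h) ⟨(x ^ i g)⁻¹ * g, hmem _ g (hval g)⟩,
      ← map_mul]
    congr 1
    apply Subtype.ext
    show (x ^ (i (g * h) + p * k))⁻¹ * (g * h) =
      ((x ^ i h)⁻¹ * ((x ^ i g)⁻¹ * g) * x ^ i h) * ((x ^ i h)⁻¹ * h)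
    rw [← hk, pow_add, mul_inv_rev]
    group
  · intro y
    show a _ = a y
    congr 1
    apply Subtype.ext
    show (x ^ i y)⁻¹ * (y : X) = y
    have h0 : i y = 0 := by
      show (Multiplicative.toAdd (χ y)).val = 0
      rw [show χ y = 1 from y.2, toAdd_one, ZMod.val_zero]
    rw [h0, pow_zero, inv_one, one_mul]

/-- The second homomorphism. -/
lemma Core2.exists_second (hC : Core2 X p χ) :
    ∃ (a : X →* Multiplicative (ZMod p)) (y : X), χ y = 1 ∧ a y ≠ 1 := by
  classical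
  have hp := hC.prime
  have : Fact p.Prime := ⟨hp⟩
  have hXfg := hC.fg
  obtain ⟨x, hx⟩ := hC.surj (Multiplicative.ofAdd 1)
  have hfi : χ.ker.FiniteIndex := Subgroup.finiteIndex_ker χ
  have hYfg : Group.FG χ.ker := inferInstance
  have hxp : x ^ p ∈ χ.ker := by
    rw [MonoidHom.mem_ker, map_pow, hx, ← ofAdd_nsmul, nsmul_eq_mul, mul_one, ZMod.natCast_self,
      ofAdd_zero]
  let z : χ.ker := ⟨x ^ p, hxp⟩
  have hz1 : z ≠ 1 := by
    intro h
    have h1 : x ^ p = 1 := congrArg Subtype.val h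
    have h2 := hC.tf x p hp.one_le h1
    rw [h2, map_one] at hx
    have h3 : (0 : ZMod p) = 1 := congrArg Multiplicative.toAdd hx
    exact zero_ne_one h3
  obtain ⟨f, hf⟩ : ∃ f : χ.ker →* Multiplicative ℤ, Function.Surjective f := by
    by_contra hcon
    push Not at hcon
    exact LI.not_noZ hC.ker hYfg ⟨z, hz1⟩ hcon
  have hfz : f z = 1 := by
    apply NoZ.invariant hC.noz χ.ker f z
    intro g
    -- write g = x ^ i * y
    let i : ℕ := (Multiplicative.toAdd (χ g)).val
    have hy : (x ^ i)⁻¹ * g ∈ χ.ker := by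
      rw [MonoidHom.mem_ker, map_mul, map_inv, map_pow, hx, ← ofAdd_nsmul, nsmul_eq_mul, mul_one,
        ZMod.natCast_zmod_val, ofAdd_toAdd, inv_mul_cancel]
    have h1 : (⟨g⁻¹ * (z : X) * g, conj_mem χ.ker z g⟩ : χ.ker) =
        (⟨(x ^ i)⁻¹ * g, hy⟩ : χ.ker)⁻¹ * z * ⟨(x ^ i)⁻¹ * g, hy⟩ := by
      apply Subtype.ext
      show g⁻¹ * x ^ p * g = ((x ^ i)⁻¹ * g)⁻¹ * x ^ p * ((x ^ i)⁻¹ * g)
      have h2 : x ^ i * x ^ p * (x ^ i)⁻¹ = x ^ p := by
        rw [← pow_add, add_comm, pow_add, mul_inv_cancel_right]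
      calc g⁻¹ * x ^ p * g = g⁻¹ * (x ^ i * x ^ p * (x ^ i)⁻¹) * g := by rw [h2]
        _ = ((x ^ i)⁻¹ * g)⁻¹ * x ^ p * ((x ^ i)⁻¹ * g) := by
          rw [mul_inv_rev, inv_inv]; simp only [mul_assoc]
    rw [h1, map_mul, map_mul, map_inv]
    rw [mul_comm, mul_inv_cancel_left]
  let red : Multiplicative ℤ →* Multiplicative (ZMod p) :=
    AddMonoidHom.toMultiplicative (Int.castAddHom (ZMod p))
  obtain ⟨a, ha1, haz, hainv⟩ := exists_fixed_hom hp χ.ker hYfg x z rfl (red.comp f)
    (by rw [MonoidHom.comp_apply, hfz, map_one]) (by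
      intro h
      obtain ⟨y, hy⟩ := hf (Multiplicative.ofAdd 1)
      have h1 := DFunLike.congr_fun h y
      rw [MonoidHom.comp_apply, hy] at h1
      have h2 : ((1 : ℤ) : ZMod p) = 0 := congrArg Multiplicative.toAdd h1
      rw [Int.cast_one] at h2
      exact one_ne_zero h2)
  obtain ⟨b, hb⟩ := exists_extension hp x hx z rfl a haz hainv
  obtain ⟨y, hy⟩ : ∃ y, a y ≠ 1 := by
    by_contra hcon
    push Not at hcon
    exact ha1 (MonoidHom.ext hcon)
  exact ⟨b, y, y.2, by rw [hb]; exact hy⟩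

end

end Pool.Agent.H27.Ord
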