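import Pool.Agent.H27.Ord.Main
import Pool.Agent.H27.Ord.Conrad
import Pool.Agent.H83.Ord.Metab

set_option autoImplicit false

/-!
# Locally solvable groups
-/

namespace Pool.Agent.H27.Ord

open Pool.Agent.H83.Ord

/-- Every finitely generated subgroup is solvable. -/
def LocallySolvable (G : Type) [Group G] : Prop :=
  ∀ X : Subgroup G, X.FG → Group.IsSolvable X

lemma isSolvable_pi {G : Type*} [Group G] (hs : Group.IsSolvable G) (ι : Type*) :
    Group.IsSolvable (ι → G) := by
  obtain ⟨n, hn⟩ := hs.solvable
  refine ⟨n, ?_⟩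
  rw [eq_bot_iff]
  intro x hx
  rw [Subgroup.mem_bot]
  funext i
  have h1 := map_derivedSeries_le_derivedSeries (Pi.evalMonoidHom (fun _ : ι => G) i) n
    ⟨x, hx, rfl⟩
  rw [hn, Subgroup.mem_bot] at h1
  exact h1

lemma fg_map {G H : Type*} [Group G] [Group H] {X : Subgroup G} (hX : X.FG) (f : G →* H) :
    (X.map f).FG := by
  classical
  obtain ⟨S, hS⟩ := hX
  refine ⟨S.image f, ?_⟩
  rw [← hS, MonoidHom.map_closure, Finset.coe_image]

lemma LocallySolvable.of_injective {G H : Type} [Group G] [Group H] (f : H →* G)
    (hf : Function.Injective f) (h : LocallySolvable G) : LocallySolvable H := by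
  intro X hX
  have h1 : (X.map f).FG := fg_map hX f
  have h2 := h _ h1
  have e : X ≃* X.map f := X.equivMapOfInjective f hf
  exact Group.isSolvable_of_isSolvable_injective (f := e.toMonoidHom) e.injective

lemma LocallySolvable.pi {G : Type} [Group G] (ι : Type) [Finite ι] (h : LocallySolvable G) :
    LocallySolvable (ι → G) := by
  intro X hX
  have h1 : ∀ i, Group.IsSolvable (X.map (Pi.evalMonoidHom (fun _ : ι => G) i)) :=
    fun i => h _ (fg_map hX _)
  -- all coordinates lie in a finitely generated subgroup
  let Y : Subgroup G := ⨆ i, X.map (Pi.evalMonoidHom (fun _ : ι => G) i)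
  have hY : Y.FG := Subgroup.FG.iSup _ (fun i => fg_map hX _)
  have h2 := isSolvable_pi (h Y hY) ι
  let f : X →* (ι → Y) :=
    { toFun := fun x i => ⟨x.1 i, (le_iSup (fun i => X.map (Pi.evalMonoidHom (fun _ : ι => G) i)) i)
        ⟨x.1, x.2, rfl⟩⟩
      map_one' := rfl
      map_mul' := fun _ _ => rfl }
  refine Group.isSolvable_of_isSolvable_injective (f := f) ?_
  intro a b hab
  apply Subtype.ext
  funext i
  exact congrArg Subtype.val (congrFun hab i)

lemma LocallySolvable.locallyLIBySolvable {G : Type} [Group G] (h : LocallySolvable G) :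
    LocallyLIBySolvable G := by
  intro X hX
  have hs := h X hX
  refine ⟨⊥, inferInstance, ?_, ?_⟩
  · intro H _ hne
    exfalso
    apply hne
    rw [Subgroup.eq_bot_iff_forall]
    intro x _
    exact Subsingleton.elim _ _
  · exact Group.isSolvable_of_surjective (QuotientGroup.mk'_surjective _)

/-- The case of locally solvable groups. -/
theorem infinite_failing_solvable (K : GroupClass)
    (hK1 : ∀ (G : Type) [Group G], LocallyIndicable G → K G)
    (hK2 : ∀ (G : Type) [Group G], K G → RightOrderable G)
    (C : GroupClass)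
    (hCsub : ∀ (G : Type) [Group G], C G → ∀ H : Subgroup G, C H)
    (hCpow : ∀ (G : Type) [Group G], C G → ∀ ι : Type, Finite ι → C (ι → G))
    (hCtf : ∀ (G : Type) [Group G], C G → TorsionFree G)
    (S : Set QuasiIdentity) (hS : Defines S K C)
    (P : Type) [Group P] (hP : C P) (hsol : LocallySolvable P) (hPK : ¬ K P) :
    {σ ∈ S | ¬ σ.HoldsIn P}.Infinite := by
  refine infinite_failing_gen K hK1 C hCsub hCpow hCtf S hS P hP hsol.locallyLIBySolvable
    (fun h => hPK (hK1 P h)) ?_
  intro X hX ι _ E hfg hN hne hKE
  have h1 := hsol X hX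
  have h2 : Group.IsSolvable (ι → X) := isSolvable_pi h1 ι
  exact not_noZ_of_rightOrderable hfg inferInstance hne (hK2 _ hKE) hN

/-- A general form of the consequence for independent sets. -/
theorem not_independent_of_infinite (K C : GroupClass) (S : Set QuasiIdentity)
    (hS : Defines S K C)
    (hinf : ∀ (P : Type) [Group P], C P → ¬ K P → {σ ∈ S | ¬ σ.HoldsIn P}.Infinite)
    (hne : ∃ (G : Type) (_ : Group G), C G ∧ ¬ K G) : ¬ IndependentIn S C := by
  intro hind
  obtain ⟨P, iP, hP, hPK⟩ := hne
  obtain ⟨σ, hσS, hσP⟩ := (hinf P hP hPK).nonempty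
  have h2 := hind σ hσS
  push Not at h2
  obtain ⟨G, iG, hG, hGτ, hGσ⟩ := h2
  have hGK : ¬ K G := fun h => hGσ ((hS G hG).1 h σ hσS)
  have h3 := hinf G hG hGK
  apply h3
  refine (Set.finite_singleton σ).subset ?_
  rintro τ ⟨hτS, hτG⟩
  by_contra hne
  exact hτG (hGτ τ ⟨hτS, hne⟩)

/-- No independent set of quasi-identities defines `K` in a class of torsion-free locally solvable
groups containing a group outside `K`. -/
theorem not_independent_solvable (K : GroupClass)
    (hK1 : ∀ (G : Type) [Group G], LocallyIndicable G → K G)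
    (hK2 : ∀ (G : Type) [Group G], K G → RightOrderable G)
    (C : GroupClass)
    (hCsub : ∀ (G : Type) [Group G], C G → ∀ H : Subgroup G, C H)
    (hCpow : ∀ (G : Type) [Group G], C G → ∀ ι : Type, Finite ι → C (ι → G))
    (hCtf : ∀ (G : Type) [Group G], C G → TorsionFree G)
    (hCsol : ∀ (G : Type) [Group G], C G → LocallySolvable G)
    (hne : ∃ (G : Type) (_ : Group G), C G ∧ ¬ K G)
    (S : Set QuasiIdentity) (hS : Defines S K C) : ¬ IndependentIn S C :=
  not_independent_of_infinite K C S hS
    (fun P _ hP hPK => infinite_failing_solvable K hK1 hK2 C hCsub hCpow hCtf S hS P hP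
      (hCsol P hP) hPK) hne

/-- No independent set of quasi-identities defines the locally indicable groups in a class of
torsion-free locally LI-by-solvable groups containing a group which is not locally indicable. -/
theorem not_independent_LI (C : GroupClass)
    (hCsub : ∀ (G : Type) [Group G], C G → ∀ H : Subgroup G, C H)
    (hCpow : ∀ (G : Type) [Group G], C G → ∀ ι : Type, Finite ι → C (ι → G))
    (hCtf : ∀ (G : Type) [Group G], C G → TorsionFree G)
    (hCsol : ∀ (G : Type) [Group G], C G → LocallyLIBySolvable G)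
    (hne : ∃ (G : Type) (_ : Group G), C G ∧ ¬ LocallyIndicable G)
    (S : Set QuasiIdentity) (hS : Defines S LocallyIndicable C) : ¬ IndependentIn S C :=
  not_independent_of_infinite LocallyIndicable C S hS
    (fun P _ hP hPK => infinite_failing_LI C hCsub hCpow hCtf S hS P hP (hCsol P hP) hPK) hne

lemma Metabelian.isSolvable {G : Type} [Group G] (h : Metabelian G) : Group.IsSolvable G := by
  have h1 : Group.IsSolvable (commutator G) :=
    Group.isSolvable_of_comm (fun a b => Subtype.ext (h a.1 a.2 b.1 b.2))
  have h2 : Group.IsSolvable (G ⧸ commutator G) :=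
    (inferInstance : Group.IsSolvable (Abelianization G))
  exact (Group.isSolvable_iff_subgroup_quotient (commutator G)).2 ⟨h1, h2⟩

end Pool.Agent.H27.Ord
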